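import Pool.Agent.MP_c07293_an.H17.Ext

/-! The family of periodic orbits in one compact set, in dimension three and characteristic two. -/

namespace Pool.Agent.MP_c07293_an.H17

open Polynomial WithZero Matrix Pool.Agent.MP_c07293_an.H82

theorem exists_tau {F : Type} [Field F] [CharP F 2] : ∃ t : LaurentSeries F, vv t = exp 1 ∧
    t ^ 3 + t + 1 = uu F 1 * (t ^ 2 + t) := by
  have := charL (F := F)
  obtain ⟨f, hf'⟩ := (LaurentSeries.val_le_one_iff_eq_coe F (uu F (-1))).mp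
    ((vv_uu (-1)).trans_le exp_neg_lt.le)
  have hf : PowerSeries.constantCoeff f = 0 := (vv_coe_lt f).mp (by rw [hf', vv_uu])
  have hm : (X ^ 3 + (C (-1) * X ^ 2 + C (f ^ 2 - f) * X + C (f ^ 3)) :
      (PowerSeries F)[X]).Monic :=
    monic_X_pow_add (degree_quadratic_le.trans_lt (by norm_num))
  obtain ⟨T, hT, hT1⟩ := HenselianRing.is_henselian
    (I := Ideal.span {(PowerSeries.X : PowerSeries F)}) _ hm 1 (by
      rw [Ideal.mem_span_singleton, PowerSeries.X_dvd_iff]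
      simp [hf]) (by
      refine IsUnit.map _ ?_
      rw [PowerSeries.isUnit_iff_constantCoeff]
      have e : eval 1 (derivative (X ^ 3 + (C (-1) * X ^ 2 + C (f ^ 2 - f) * X + C (f ^ 3)) :
          (PowerSeries F)[X])) = 1 + (f ^ 2 - f) := by
        simp only [derivative_add, derivative_X_pow, derivative_C_mul, derivative_X, derivative_C,
          eval_add, eval_mul, eval_pow, eval_C, eval_X, eval_one, eval_zero]
        push_cast
        ring
      rw [e]
      simp [hf])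
  have h1 : (T : LaurentSeries F) ^ 3 - (T : LaurentSeries F) ^ 2 +
      (uu F (-1) ^ 2 - uu F (-1)) * (T : LaurentSeries F) + uu F (-1) ^ 3 = 0 := by
    have h1 : T ^ 3 - T ^ 2 + (f ^ 2 - f) * T + f ^ 3 = 0 := by
      have := hT.eq_zero
      simp only [eval_add, eval_mul, eval_pow, eval_X, eval_C] at this
      linear_combination this
    have := congrArg (HahnSeries.ofPowerSeries ℤ F) h1
    simpa [← hf'] using this
  rw [Ideal.mem_span_singleton, PowerSeries.X_dvd_iff, ← vv_coe_lt, map_sub, map_one] at hT1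
  refine ⟨uu F 1 * (T : LaurentSeries F), ?_, ?_⟩
  · rw [map_mul, vv_uu, ← add_sub_cancel 1 (T : LaurentSeries F),
      Valuation.map_add_eq_of_lt_left, map_one, mul_one]
    rw [map_one]
    exact hT1.trans_lt exp_neg_lt
  · have h2 := xu (F := F)
    clear * - h1 h2 this
    grind

/-- the data of the construction -/
structure Da (F E : Type) [Field F] [Field E] where
  f : F →+* E
  w : E
  a : F
  b : F
  t : LaurentSeries F
  δ : ℕ → F[X]
  ε : ℕ → F[X]
  hw : w ^ 2 + w + 1 = 0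
  hs : ∀ a : E, IsSquare a
  hi : Ind (f a + f b * w) (f a + f b * w ^ 2)
  ha : a ≠ 0
  hb : b ≠ 0
  hab : a + b ≠ 0
  hne : a ^ 2 + a * b + b ^ 2 ≠ 1
  vt : vv t = exp 1
  ht : t ^ 3 + t + 1 = uu F 1 * (t ^ 2 + t)
  hδ : ∀ k, δ k * (pr a b k).2.1 + ε k * (X - C 1) ^ 2 ^ k = 1

theorem exists_da {F : Type} [Field F] [CharP F 2] [Finite F] (hc : 16 < Nat.card F) :
    Nonempty (Da F (AlgebraicClosure F)) := by
  obtain ⟨w, hw⟩ := IsAlgClosed.exists_root (X ^ 2 + (X + C 1) : (AlgebraicClosure F)[X]) (by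
    rw [degree_add_eq_left_of_degree_lt (by rw [degree_X_add_C, degree_X_pow]; norm_num),
      degree_X_pow]
    norm_num)
  have hw' : w ^ 2 + w + 1 = 0 := by simpa [add_assoc] using hw.eq_zero
  obtain ⟨a, b, hi, ha, hb, hab, hne⟩ := exists_ind' hw' (algebraMap F _) hc
  obtain ⟨t, vt, ht⟩ := exists_tau (F := F)
  have h : ∀ k, IsCoprime (pr a b k).2.1 ((X - C 1) ^ 2 ^ k) := fun k =>
    (((irreducible_X_sub_C 1).coprime_iff_not_dvd.mpr fun h =>
      (pr_eval ha hb hab hne k).2.1 (dvd_iff_isRoot.mp h)).symm).pow_right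
  choose δ ε hδ using h
  exact ⟨⟨algebraMap F _, w, a, b, t, δ, ε, hw', IsAlgClosed.exists_eq_mul_self, hi, ha, hb, hab,
    hne, vt, ht, hδ⟩⟩

variable {F E : Type} [Field F] [Field E] (A : Da F E) (k : ℕ)

theorem one_lt_exp : (1 : ℤᵐ⁰) < exp (1 : ℤ) := by rw [← exp_zero, exp_lt_exp]; norm_num

theorem vv_add_C {t : LaurentSeries E} (h : vv t = exp 1) (c : E) :
    vv (t + HahnSeries.C c) = exp 1 := by
  rw [Valuation.map_add_eq_of_lt_left, h]
  rw [h]
  exact (vv_C_le _).trans_lt one_lt_exp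

theorem vv_C_add {t : LaurentSeries E} (h : vv t = exp (-1)) {c : E} (hc : c ≠ 0) :
    vv (t + HahnSeries.C c) = 1 := by
  rw [Valuation.map_add_eq_of_lt_right, vv_C hc]
  rw [h, vv_C hc]
  exact exp_neg_lt

theorem ne_of_vv {t : LaurentSeries E} {d : ℤ} (h : vv t = exp d) : t ≠ 0 := fun h0 => by
  rw [h0, map_zero] at h
  exact exp_ne_zero h.symm

/-- the three roots -/
noncomputable def Da.tt : Fin 3 → LaurentSeries F := ![A.t, (A.t + 1)⁻¹, 1 + A.t⁻¹]

/-- the modulus -/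
noncomputable def Da.P (_ : Da F E) (k : ℕ) : F[X] := (X - C 1) ^ 2 ^ k

/-- the first shift -/
noncomputable def Da.r1 : F[X] := A.δ k * ((pr A.a A.b k).1 + (pr A.a A.b k).2.1 + (pr A.a A.b k).2.2)

/-- the second shift -/
noncomputable def Da.r2 : F[X] := A.δ k * (pr A.a A.b k).1

/-- the matrix of the lattice -/
noncomputable def Da.G : Matrix (Fin 3) (Fin 3) (LaurentSeries F) :=
  Matrix.of fun i => ![emb F (A.P k), emb F (A.r1 k) + A.tt i, emb F (A.r2 k) + A.tt i ^ 2]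

theorem Da.v1 : vv (A.t + 1)⁻¹ = exp (-1) := by
  have := vv_add_C A.vt 1
  rw [map_one] at this
  rw [map_inv₀, this, WithZero.exp_neg]

theorem Da.v2 : vv A.t⁻¹ = exp (-1) := by rw [map_inv₀, A.vt, WithZero.exp_neg]

theorem Da.e1 : (A.t + 1)⁻¹ * (A.t + 1) = 1 := 
  inv_mul_cancel₀ fun h => ne_of_vv A.v1 (by rw [h, _root_.inv_zero])

theorem Da.e2 : A.t⁻¹ * A.t = 1 := inv_mul_cancel₀ (ne_of_vv A.vt)

theorem Da.G_mulVec (x : Fin 3 → LaurentSeries F) (i : Fin 3) : (A.G k *ᵥ x) i =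
    emb F (A.P k) * x 0 + emb F (A.r1 k) * x 1 + emb F (A.r2 k) * x 2 + A.tt i * x 1 +
      A.tt i ^ 2 * x 2 := by
  simp [Da.G, mulVec, dotProduct, Fin.sum_univ_three]
  ring

theorem Da.det_G : (A.G k).det =
    emb F (A.P k) * ((A.tt 1 - A.tt 0) * (A.tt 2 - A.tt 0) * (A.tt 2 - A.tt 1)) := by
  simp only [Da.G, det_fin_three, of_apply, cons_val_zero, cons_val_one, cons_val]
  ring

theorem Da.vP : vv (emb F (A.P k)) = exp ((2 : ℤ) ^ k) := by
  have := vv_add_C (vv_uu (F := F) 1) (-1)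
  rw [Da.P, map_pow, map_pow, map_sub, emb_eq, ev_X, ev_C, sub_eq_add_neg, ← map_neg, this,
    ← WithZero.exp_nsmul]
  simp

theorem Da.vV : vv (A.tt 1 - A.tt 0) = exp 1 ∧ vv (A.tt 2 - A.tt 0) = exp 1 ∧
    vv (A.tt 2 - A.tt 1) = 1 := by
  have h2 : vv (1 + A.t⁻¹) = 1 := by
    have := vv_C_add A.v2 one_ne_zero
    rwa [map_one, add_comm] at this
  simp only [Da.tt, cons_val_zero, cons_val_one, cons_val]
  refine ⟨?_, ?_, ?_⟩
  · rw [Valuation.map_sub_eq_of_lt_right, A.vt]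
    rw [A.v1, A.vt]
    exact exp_neg_lt.trans one_lt_exp
  · rw [Valuation.map_sub_eq_of_lt_right, A.vt]
    rw [h2, A.vt]
    exact one_lt_exp
  · rw [Valuation.map_sub_eq_of_lt_left, h2]
    rw [h2, A.v1]
    exact exp_neg_lt

theorem Da.v_det : vv (A.G k).det = exp ((2 : ℤ) ^ k + 2) := by
  rw [A.det_G, map_mul, map_mul, map_mul, A.vP, A.vV.1, A.vV.2.1, A.vV.2.2, mul_one, ← exp_add,
    ← exp_add]
  rfl

theorem Da.det_ne : (A.G k).det ≠ 0 := ne_of_vv (A.v_det k)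

theorem Da.V_ne : A.tt 1 - A.tt 0 ≠ 0 ∧ A.tt 2 - A.tt 0 ≠ 0 ∧ A.tt 2 - A.tt 1 ≠ 0 :=
  ⟨ne_of_vv A.vV.1, ne_of_vv A.vV.2.1, ne_of_vv (d := 0) A.vV.2.2⟩

variable [CharP F 2] [CharP E 2]

omit [CharP E 2] in
theorem Da.tt3 (i : Fin 3) : A.tt i ^ 3 + A.tt i + 1 = uu F 1 * (A.tt i ^ 2 + A.tt i) := by
  have := charL (F := F)
  have h := A.ht
  have h1 := A.e1
  have h2 := A.e2
  fin_cases i <;> simp only [Da.tt, Fin.zero_eta, Fin.mk_one, Fin.reduceFinMk, cons_val]
  · exact h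
  · generalize (A.t + 1)⁻¹ = y at *
    clear h2
    grind
  · generalize A.t⁻¹ = y at *
    clear h1
    grind

theorem Da.kummer (i : Fin 3) : ∃ T : LaurentSeries E,
    T ^ 3 = 1 + (uu E 1 + HahnSeries.C (A.w ^ 2))⁻¹ ∧
    vv (T - HahnSeries.C (![1, A.w ^ 2, A.w] i)) = exp (-1) ∧
    (T + 1) * (lm A.f (A.tt i) + HahnSeries.C A.w ^ 2) = 1 ∧ vv (T + 1) = exp (![-1, 0, 0] i) := by
  have := charL (F := E)
  have hC := hCw A.hw
  have h3 := congrArg (lm A.f) (A.tt3 i)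
  simp only [map_add, map_mul, map_pow, map_one, lm_uu] at h3
  have hx := inv_mul_cancel₀ (ne_of_vv (vv_add_C (vv_uu (F := E) 1) (A.w ^ 2)))
  have key : ∀ d : ℤ, vv (lm A.f (A.tt i) + HahnSeries.C (A.w ^ 2)) = exp d →
      ∃ T : LaurentSeries E, T ^ 3 = 1 + (uu E 1 + HahnSeries.C (A.w ^ 2))⁻¹ ∧
        (T + 1) * (lm A.f (A.tt i) + HahnSeries.C A.w ^ 2) = 1 ∧ vv (T + 1) = exp (-d) := by
    intro d hd
    have hy := inv_mul_cancel₀ (ne_of_vv hd)
    have vy : vv (lm A.f (A.tt i) + HahnSeries.C (A.w ^ 2))⁻¹ = exp (-d) := by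
      rw [map_inv₀, hd, WithZero.exp_neg]
    generalize (lm A.f (A.tt i) + HahnSeries.C (A.w ^ 2))⁻¹ = y at hy vy
    generalize (uu E 1 + HahnSeries.C (A.w ^ 2))⁻¹ = x at hx ⊢
    rw [map_pow] at hx hy
    refine ⟨y - 1, ?_, by rwa [sub_add_cancel], by rwa [sub_add_cancel]⟩
    clear * - hx hy h3 hC this
    grind
  have w2 : vv (HahnSeries.C A.w : LaurentSeries E) = 1 := vv_C (w0 A.hw)
  fin_cases i
  · obtain ⟨T, a1, a2, a3⟩ := key 1 (vv_add_C ((vv_lm _ _).trans A.vt) _)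
    refine ⟨T, a1, ?_, a2, a3⟩
    have : T - HahnSeries.C (1 : E) = T + 1 := by rw [map_one]; grind
    exact this ▸ a3
  · have v1 := (vv_lm A.f _).trans A.v1
    obtain ⟨T, a1, a2, a3⟩ := key 0 (vv_C_add v1 (w20 A.hw))
    refine ⟨T, a1, ?_, a2, a3⟩
    have : T - HahnSeries.C (A.w ^ 2) = (T + 1) * (HahnSeries.C A.w * lm A.f (A.t + 1)⁻¹) := by
      have a4 : (T + 1) * (lm A.f (A.t + 1)⁻¹ + HahnSeries.C A.w ^ 2) = 1 := a2
      rw [map_pow]
      clear * - a4 hC this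
      grind
    change vv (T - HahnSeries.C (A.w ^ 2)) = _
    rw [this, map_mul, map_mul, a3, w2, v1]
    simp
  · have v2 := (vv_lm A.f _).trans A.v2
    have e : lm A.f (1 + A.t⁻¹) + HahnSeries.C (A.w ^ 2) = lm A.f A.t⁻¹ + HahnSeries.C A.w := by
      rw [map_add, map_one, map_pow]; grind
    obtain ⟨T, a1, a2, a3⟩ := key 0 (e ▸ vv_C_add v2 (w0 A.hw))
    refine ⟨T, a1, ?_, a2, a3⟩
    have : T - HahnSeries.C A.w = (T + 1) * (HahnSeries.C A.w ^ 2 * lm A.f A.t⁻¹) := by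
      have a4 : (T + 1) * (lm A.f (1 + A.t⁻¹) + HahnSeries.C A.w ^ 2) = 1 := a2
      rw [map_add, map_one] at a4
      clear * - a4 hC this
      grind
    change vv (T - HahnSeries.C A.w) = _
    rw [this, map_mul, map_mul, map_pow, a3, w2, v2]
    simp

theorem Da.min_G (x : Fin 3 → F[X]) (hx : x ≠ 0) :
    vv (A.G k).det ≤ (∏ i, vv ((A.G k *ᵥ fun j => emb F (x j)) i)) * exp 2 := by
  have := charL (F := E)
  have inj : Function.Injective (emb F) := ev_inj (vv_uu 1) one_ne_zero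
  have hC := hCw A.hw
  have vU := vv_add_C (vv_uu (F := E) 1) (A.w ^ 2)
  have hU := inv_mul_cancel₀ (ne_of_vv vU)
  have vx : vv (uu E 1 + HahnSeries.C (A.w ^ 2))⁻¹ = exp (-1) := by
    rw [map_inv₀, vU, WithZero.exp_neg]
  choose T hT vT eT vT1 using A.kummer
  generalize (uu E 1 + HahnSeries.C (A.w ^ 2))⁻¹ = y at hU vx hT
  set v0 := A.P k * x 0 + A.r1 k * x 1 + A.r2 k * x 2 with hv0
  obtain ⟨a, ha⟩ := homog' hU (v0.map A.f + C A.w * (x 1).map A.f + C A.w ^ 2 * (x 2).map A.f)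
  obtain ⟨b, hb⟩ := homog' hU ((x 1).map A.f)
  obtain ⟨c, hc⟩ := homog' hU (v0.map A.f + C A.w ^ 2 * (x 1).map A.f + C A.w * (x 2).map A.f)
  obtain ⟨Y0, d0, e0⟩ := ha (a + b + c) (by omega)
  obtain ⟨Y1, d1, e1⟩ := hb (a + b + c) (by omega)
  obtain ⟨Y2, d2, e2⟩ := hc (a + b + c) (by omega)
  generalize a + b + c = D at *
  have eC : emb E (C A.w) = HahnSeries.C A.w := by rw [emb_eq, ev_C]
  simp only [map_add, map_mul, map_pow, eC, ← lm_emb] at e0 e1 e2
  have e : ∀ i, ev (T i) (ll Y0 Y1 Y2) =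
      y ^ D * ((T i + 1) ^ 2 * lm A.f ((A.G k *ᵥ fun j => emb F (x j)) i)) := by
    intro i
    have e3 : (A.G k *ᵥ fun j => emb F (x j)) i =
        emb F v0 + A.tt i * emb F (x 1) + A.tt i ^ 2 * emb F (x 2) := by
      rw [A.G_mulVec, hv0]
      simp only [map_add, map_mul]
    have e4 := eT i
    simp only [ll, e3, map_add, map_mul, map_pow, ev_X, ev_expand, hT, e0, e1, e2]
    generalize y ^ D = z
    clear * - e4 hC this
    grind
  have hG : ll Y0 Y1 Y2 ≠ 0 := by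
    intro h
    have h1 : (A.G k *ᵥ fun j => emb F (x j)) = 0 := funext fun i => by
      have := e i
      rw [h, map_zero] at this
      exact (map_eq_zero _).mp ((mul_eq_zero.mp ((mul_eq_zero.mp this.symm).resolve_left
        (pow_ne_zero _ (ne_of_vv vx)))).resolve_left (pow_ne_zero _ (ne_of_vv (vT1 i))))
    have h2 := eq_zero_of_mulVec_eq_zero (A.det_ne k) h1
    exact hx (funext fun j => inj (by rw [Pi.zero_apply, map_zero]; exact congrFun h2 j))
  have hz := (family A.hw A.hs A.hi k).2.1 Y0 Y1 Y2 hG (transfer' A.hw A.f hU vx A.a A.b k _ D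
    ⟨A.ε k * (((pr A.a A.b k).1 + (pr A.a A.b k).2.1 + (pr A.a A.b k).2.2) * x 1 +
      (pr A.a A.b k).1 * x 2) + (pr A.a A.b k).2.1 * x 0, by
        rw [hv0, Da.r1, Da.r2, Da.P]
        linear_combination (norm := grind)
          (((pr A.a A.b k).1 + (pr A.a A.b k).2.1 + (pr A.a A.b k).2.2) * x 1 +
            (pr A.a A.b k).1 * x 2) * A.hδ k⟩ e0 e1 e2)
  have hd : (ll Y0 Y1 Y2).natDegree ≤ 3 * D + 2 := by
    have b0 : (expand E 3 Y0).natDegree ≤ 3 * D := by rw [natDegree_expand]; omega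
    have b1 : (expand E 3 Y1).natDegree ≤ 3 * D := by rw [natDegree_expand]; omega
    have b2 : (expand E 3 Y2).natDegree ≤ 3 * D := by rw [natDegree_expand]; omega
    have c1 := natDegree_mul_le (p := X) (q := expand E 3 Y1)
    have c2 := natDegree_mul_le (p := X ^ 2) (q := expand E 3 Y2)
    rw [natDegree_X] at c1
    rw [natDegree_X_pow] at c2
    exact (natDegree_add_le _ _).trans (max_le ((natDegree_add_le _ _).trans
      (max_le (by omega) (by omega))) (by omega))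
  have hv : ∀ i, vv ((A.G k *ᵥ fun j => emb F (x j)) i) =
      exp ((D : ℤ) - 2 * ![-1, 0, 0] i - (ll Y0 Y1 Y2).rootMultiplicity (![1, A.w ^ 2, A.w] i)) := by
    intro i
    have := val_ev (vT i) hG
    rw [e, map_mul, map_mul, map_pow, map_pow, vx, vT1, vv_lm, ← WithZero.exp_nsmul,
      ← WithZero.exp_nsmul] at this
    rw [sub_eq_add_neg, exp_add, ← this, ← mul_assoc, ← mul_assoc, ← exp_add, ← exp_add,
      show (D : ℤ) - 2 * ![-1, 0, 0] i + D • -1 + 2 • ![-1, 0, 0] i = 0 by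
        simp only [nsmul_eq_mul]; push_cast; ring, exp_zero, one_mul]
  rw [A.v_det, Fin.prod_univ_three, hv, hv, hv, ← exp_add, ← exp_add, ← exp_add, exp_le_exp]
  rw [zz] at hz
  simp only [cons_val_zero, cons_val_one, cons_val]
  omega

/-- the lattice as an invertible matrix -/
noncomputable def Da.g : GL (Fin 3) (LaurentSeries F) :=
  GeneralLinearGroup.mkOfDetNeZero _ (A.det_ne k)

theorem Da.orb_sub : orb (A.g k : _ ⧸ Gam F 3) ⊆ QuotientGroup.mk '' CC F 3 6 := by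
  rintro _ ⟨a, ha, rfl⟩
  refine into_CC3 (a * A.g k) fun x hx => ?_
  have e : (a * A.g k).val = diagonal a.val.diag * A.G k := by
    rw [ha.diagonal_diag]; rfl
  rw [e, det_mul, det_diagonal, map_mul, map_prod, ← mulVec_mulVec]
  simp only [mulVec_diagonal, map_mul]
  rw [Finset.prod_mul_distrib, mul_assoc]
  exact mul_le_mul' le_rfl (A.min_G k x hx)

/-- the entries of the regular diagonal matrix -/
noncomputable def Da.la (i : Fin 3) : LaurentSeries F := emb F (A.P k) * A.tt i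

omit [CharP E 2] in
theorem Da.la_ne (i : Fin 3) : A.la k i ≠ 0 := by
  refine mul_ne_zero (ne_of_vv (A.vP k)) fun h => ?_
  have := A.tt3 i
  rw [h] at this
  simp at this

omit [CharP F 2] [CharP E 2] in
theorem Da.la_inj (i j : Fin 3) (hij : i ≠ j) : A.la k i ≠ A.la k j := by
  intro h
  have h1 := mul_left_cancel₀ (ne_of_vv (A.vP k)) h
  obtain ⟨a, b, c⟩ := A.V_ne
  rw [sub_ne_zero] at a b c
  fin_cases i <;> fin_cases j <;> simp_all

/-- the regular diagonal matrix -/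
noncomputable def Da.lam : GL (Fin 3) (LaurentSeries F) :=
  GeneralLinearGroup.mkOfDetNeZero (diagonal (A.la k)) (by
    rw [det_diagonal]; exact Finset.prod_ne_zero_iff.mpr fun i _ => A.la_ne k i)

omit [CharP E 2] in
theorem Da.lam_val : (A.lam k).val = diagonal (A.la k) := rfl

omit [CharP E 2] in
theorem Da.pres : Pres (A.lam k) (A.g k) := by
  have key : ∀ y0 y1 y2 : F[X], ∃ x : Fin 3 → F[X], ∀ i, (A.G k *ᵥ fun j => emb F (x j)) i =
      A.la k i * (emb F y0 + A.tt i * emb F y1 + A.tt i ^ 2 * emb F y2) := by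
    intro y0 y1 y2
    refine ⟨![-y2 - A.r1 k * (y0 + (X - 1) * y2) - A.r2 k * (y1 + X * y2),
      A.P k * (y0 + (X - 1) * y2), A.P k * (y1 + X * y2)], fun i => ?_⟩
    rw [A.G_mulVec, Da.la]
    simp only [cons_val_zero, cons_val_one, cons_val, map_mul, map_sub, map_add, map_one, emb_eq,
      ev_X, map_neg]
    linear_combination (-(ev (uu F 1) (A.P k) * ev (uu F 1) y2)) * A.tt3 i
  have col : ∀ j, ∃ x : Fin 3 → F[X], ∀ i, A.la k i * A.G k i j =
      (A.G k *ᵥ fun l => emb F (x l)) i := by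
    intro j
    fin_cases j
    · obtain ⟨x, hx⟩ := key (A.P k) 0 0
      exact ⟨x, fun i => by rw [hx]; simp [Da.G]⟩
    · obtain ⟨x, hx⟩ := key (A.r1 k) 1 0
      exact ⟨x, fun i => by rw [hx]; simp [Da.G]⟩
    · obtain ⟨x, hx⟩ := key (A.r2 k) 0 1
      exact ⟨x, fun i => by rw [hx]; simp [Da.G]⟩
  choose x hx using col
  refine ⟨Matrix.of fun l j => x j l, ?_⟩
  ext1 i j
  rw [A.lam_val, diagonal_mul]
  exact hx j i

omit [CharP F 2] [CharP E 2] in
theorem Da.tri_zero {a b c : LaurentSeries F} (h : ∀ i, a + A.tt i * b + A.tt i ^ 2 * c = 0) :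
    a = 0 ∧ b = 0 ∧ c = 0 := by
  obtain ⟨n1, n2, n3⟩ := A.V_ne
  have e2 : (A.tt 1 - A.tt 0) * (A.tt 2 - A.tt 0) * (A.tt 2 - A.tt 1) * c = 0 := by
    linear_combination (A.tt 2 - A.tt 1) * h 0 - (A.tt 2 - A.tt 0) * h 1 + (A.tt 1 - A.tt 0) * h 2
  have hc := (mul_eq_zero.mp e2).resolve_left (mul_ne_zero (mul_ne_zero n1 n2) n3)
  have e1 : (A.tt 1 - A.tt 0) * b = 0 := by
    linear_combination h 1 - h 0 - (A.tt 1 ^ 2 - A.tt 0 ^ 2) * hc
  have hb := (mul_eq_zero.mp e1).resolve_left n1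
  exact ⟨by simpa [hb, hc] using h 0, hb, hc⟩

omit [CharP E 2] in
theorem Da.not_pres {j k : ℕ} (hjk : j < k) : ¬ Pres (A.lam j) (A.g k) := by
  rintro ⟨N, hN⟩
  have inj : Function.Injective (emb F) := ev_inj (vv_uu 1) one_ne_zero
  have h1 : ∀ i, A.la j i * (emb F (A.r1 k) + A.tt i) = (A.G k *ᵥ fun l => emb F (N l 1)) i := by
    intro i
    have := congrFun (congrFun hN i) 1
    rw [A.lam_val, diagonal_mul] at this
    exact this
  have h2 : ∀ i, emb F (A.P k * N 0 1 + A.r1 k * N 1 1 + A.r2 k * N 2 1) +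
      A.tt i * emb F (N 1 1 - A.P j * A.r1 k) + A.tt i ^ 2 * emb F (N 2 1 - A.P j) = 0 := by
    intro i
    have := h1 i
    rw [A.G_mulVec, Da.la] at this
    simp only [map_add, map_mul, map_sub]
    linear_combination -this
  obtain ⟨a, b, c⟩ := A.tri_zero h2
  rw [map_eq_zero_iff _ inj] at a b c
  obtain ⟨m, hm⟩ : ∃ m, 2 ^ k = 2 ^ j + (m + 1) :=
    ⟨2 ^ k - 2 ^ j - 1, by have := Nat.pow_lt_pow_right one_lt_two hjk; omega⟩
  have hP : A.P k = A.P j * (X - C 1) ^ (m + 1) := by rw [Da.P, Da.P, hm, pow_add]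
  have h3 : A.P j * ((X - C 1) ^ (m + 1) * N 0 1 + A.r1 k ^ 2 + A.r2 k) = 0 := by
    rw [hP] at a
    linear_combination a - A.r1 k * b - A.r2 k * c
  have h4 := congrArg (eval 1) ((mul_eq_zero.mp h3).resolve_left
    (pow_ne_zero _ (X_sub_C_ne_zero _)))
  have h5 := congrArg (eval 1) (A.hδ k)
  simp only [Da.r1, Da.r2, hm, eval_add, eval_sub, eval_mul, eval_pow, eval_X, eval_C, sub_self,
    pow_add, pow_one, mul_zero, zero_mul, zero_add, add_zero, eval_zero, eval_one] at h4 h5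
  refine (pr_eval A.ha A.hb A.hab A.hne k).2.2.2 ?_
  generalize eval 1 (pr A.a A.b k).1 = x at *
  generalize eval 1 (pr A.a A.b k).2.1 = y at *
  generalize eval 1 (pr A.a A.b k).2.2 = z at *
  generalize eval 1 (A.δ k) = d at *
  clear * - h4 h5
  grind

omit [CharP E 2] in
theorem main_all [Finite F] (hc : 16 < Nat.card F) :
    ∃ Ω : Set (GL (Fin 3) (LaurentSeries F) ⧸ Gam F 3), IsCompact Ω ∧
      {O | (∃ x, O = orb x) ∧ IsCompact O ∧ O ⊆ Ω}.Infinite := by
  obtain ⟨A⟩ := exists_da hc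
  refine ⟨QuotientGroup.mk '' CC F 3 6, (compact_CC 6).image QuotientGroup.continuous_mk, ?_⟩
  have hd : ∀ k, (A.lam k).val.IsDiag := fun k => isDiag_diagonal _
  have self : ∀ k, (A.g k : _ ⧸ Gam F 3) ∈ orb (A.g k : _ ⧸ Gam F 3) := fun k =>
    ⟨1, isDiag_one, (one_smul _ _).symm⟩
  refine Set.infinite_of_injective_forall_mem (f := fun k : ℕ => orb (A.g k : _ ⧸ Gam F 3))
    (fun j k e => ?_) fun k => ⟨⟨_, rfl⟩, ?_, A.orb_sub k⟩
  · simp only at e
    rcases lt_trichotomy j k with h | h | h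
    · exact absurd ((A.pres j).of_orb (hd j) (e ▸ self k)) (A.not_pres h)
    · exact h
    · exact absurd ((A.pres k).of_orb (hd k) (e ▸ self j)) (A.not_pres h)
  · refine orb_compact (hd k) (fun i j hij => ?_) (A.pres k) (A.orb_sub k)
    rw [A.lam_val, diagonal_apply_eq, diagonal_apply_eq]
    exact A.la_inj k i j hij

end Pool.Agent.MP_c07293_an.H17
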