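import Pool.Agent.MP_c07293_an.H17.Lau

/-! Extension of the field of constants. -/

namespace Pool.Agent.MP_c07293_an.H17

open Polynomial WithZero Pool.Agent.MP_c07293_an.H82

variable {F E : Type} [Field F] [Field E]

/-- the coefficientwise map of Laurent series -/
noncomputable def lm (f : F →+* E) : LaurentSeries F →+* LaurentSeries E where
  toFun x := x.map f
  map_one' := HahnSeries.map_one f.toMonoidWithZeroHom
  map_mul' _ _ := HahnSeries.map_mul f.toNonUnitalRingHom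
  map_zero' := HahnSeries.map_zero f.toAddMonoidHom.toZeroHom
  map_add' _ _ := HahnSeries.map_add f.toAddMonoidHom

theorem lm_coeff (f : F →+* E) (x : LaurentSeries F) (n : ℤ) : (lm f x).coeff n = f (x.coeff n) :=
  rfl

theorem lm_C (f : F →+* E) (a : F) : lm f (HahnSeries.C a) = HahnSeries.C (f a) :=
  HahnSeries.map_C a f

theorem lm_uu (f : F →+* E) (d : ℤ) : lm f (uu F d) = uu E d := by
  ext n
  simp only [lm_coeff, uu, HahnSeries.coeff_single]
  split_ifs <;> simp

theorem lm_emb (f : F →+* E) (p : F[X]) : lm f (emb F p) = emb E (p.map f) := by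
  induction p using Polynomial.induction_on with
  | C a => simp only [emb_eq, ev_C, lm_C, Polynomial.map_C]
  | add p q hp hq => simp only [map_add, Polynomial.map_add, hp, hq]
  | monomial n a _ =>
    simp only [emb_eq, map_mul, map_pow, ev_C, ev_X, lm_C, lm_uu, Polynomial.map_mul,
      Polynomial.map_pow, Polynomial.map_C, Polynomial.map_X]

theorem vv_lm (f : F →+* E) (x : LaurentSeries F) : vv (lm f x) = vv x := by
  have key : ∀ d : ℤ, vv (lm f x) ≤ exp d ↔ vv x ≤ exp d := by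
    intro d
    rw [← neg_neg d, LaurentSeries.valuation_le_iff_coeff_lt_eq_zero,
      LaurentSeries.valuation_le_iff_coeff_lt_eq_zero]
    simp only [lm_coeff, map_eq_zero]
  rcases eq_or_ne x 0 with rfl | hx
  · simp
  · have h1 : vv x ≠ 0 := by simpa using hx
    have h2 : vv (lm f x) ≠ 0 := by simpa using hx
    refine le_antisymm ?_ ?_
    · rw [← exp_log h1, key, exp_log h1]
    · rw [← exp_log h2, ← key, exp_log h2]

theorem homog' {x : LaurentSeries E} {c : E} (hx : x * (uu E 1 + HahnSeries.C c) = 1) (p : E[X]) :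
    ∃ D0 : ℕ, ∀ D, D0 ≤ D → ∃ P : E[X], P.natDegree ≤ D ∧ ev (1 + x) P = x ^ D * emb E p := by
  induction p using Polynomial.induction_on with
  | C a =>
    refine ⟨0, fun D _ => ⟨(X - C 1) ^ D * C a, ?_, ?_⟩⟩
    · refine (natDegree_mul_C_le _ _).trans ?_
      rw [natDegree_pow, natDegree_X_sub_C, mul_one]
    · simp [emb_eq]
  | add p q hp hq =>
    obtain ⟨a, h1⟩ := hp
    obtain ⟨b, h2⟩ := hq
    refine ⟨max a b, fun j hj => ?_⟩
    obtain ⟨c, d1, h1⟩ := h1 j (le_of_max_le_left hj)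
    obtain ⟨d, d2, h2⟩ := h2 j (le_of_max_le_right hj)
    exact ⟨c + d, (natDegree_add_le _ _).trans (max_le d1 d2), by
      simp only [map_add, h1, h2]; ring⟩
  | monomial m a h =>
    obtain ⟨j0, h⟩ := h
    refine ⟨j0 + 1, fun j hj => ?_⟩
    obtain ⟨i, rfl⟩ : ∃ i, j = i + 1 := ⟨j - 1, by omega⟩
    obtain ⟨p, d, h⟩ := h i (by omega)
    have d1 : (C (-c) * X + C (1 + c) : E[X]).natDegree ≤ 1 := natDegree_linear_le
    refine ⟨p * (C (-c) * X + C (1 + c)), natDegree_mul_le.trans (by omega), ?_⟩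
    rw [pow_succ X m, ← mul_assoc, map_mul, h, map_mul (emb E) _ X, emb_eq, ev_X]
    simp only [map_add, map_mul (ev (1 + x)), ev_C, ev_X, map_neg, map_one]
    linear_combination (-(x ^ i * ev (uu E 1) (C a * X ^ m))) * hx

theorem ev_s_inj' {x : LaurentSeries E} (vx : vv x = exp (-1)) : Function.Injective (ev (1 + x)) := by
  rw [injective_iff_map_eq_zero]
  intro f hf
  by_contra h
  have := val_ev (t := 1 + x) (r := 1) (by simpa using vx) h
  rw [hf, map_zero] at this
  exact exp_ne_zero this.symm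

/-- the coefficients of the linear form over the small field -/
noncomputable def pr (a b : F) : ℕ → F[X] × F[X] × F[X]
  | 0 => (C a, C b, 1)
  | k + 1 => (X ^ 2 * (pr a b k).1 ^ 2 + (pr a b k).2.1 ^ 2,
      (pr a b k).1 ^ 2 + (X ^ 2 + 1) * (pr a b k).2.1 ^ 2, (X ^ 2 + X + 1) * (pr a b k).2.2 ^ 2)

theorem pr_eval [CharP F 2] {a b : F} (ha : a ≠ 0) (hb : b ≠ 0) (hab : a + b ≠ 0)
    (h : a ^ 2 + a * b + b ^ 2 ≠ 1) (k : ℕ) :
    eval 1 (pr a b k).1 ≠ 0 ∧ eval 1 (pr a b k).2.1 ≠ 0 ∧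
      eval 1 (pr a b k).1 + eval 1 (pr a b k).2.1 ≠ 0 ∧
      eval 1 (pr a b k).1 ^ 2 + eval 1 (pr a b k).1 * eval 1 (pr a b k).2.1 +
        eval 1 (pr a b k).2.1 ^ 2 ≠ eval 1 (pr a b k).2.2 ^ 2 := by
  induction k with
  | zero => simpa [pr] using ⟨ha, hb, hab, h⟩
  | succ k ih =>
    simp only [pr, eval_mul, eval_pow, eval_add, eval_X, eval_one]
    generalize eval 1 (pr a b k).1 = x at *
    generalize eval 1 (pr a b k).2.1 = y at *
    generalize eval 1 (pr a b k).2.2 = z at *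
    obtain ⟨h1, h2, h3, h4⟩ := ih
    refine ⟨fun e => pow_ne_zero 2 h3 ?_, fun e => pow_ne_zero 2 h1 ?_,
      fun e => pow_ne_zero 2 h2 ?_, fun e => pow_ne_zero 2 (sub_ne_zero.mpr h4) ?_⟩ <;>
      linear_combination (norm := grind) e

variable [CharP E 2] {w : E}

theorem hCw (hw : w ^ 2 + w + 1 = 0) :
    (HahnSeries.C w : LaurentSeries E) ^ 2 + HahnSeries.C w + 1 = 0 := by
  simpa using congrArg (HahnSeries.C : E →+* LaurentSeries E) hw

theorem pr_ph (hw : w ^ 2 + w + 1 = 0) (f : F →+* E) {x : LaurentSeries E}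
    (hx : x * (uu E 1 + HahnSeries.C (w ^ 2)) = 1) (a b : F) (k : ℕ) : ∃ e : ℕ,
    ev (1 + x) (ph (f a + f b * w) (f a + f b * w ^ 2) k).1 =
      x ^ e * (lm f (emb F (pr a b k).1) + HahnSeries.C w * lm f (emb F (pr a b k).2.1)) ∧
    ev (1 + x) (ph (f a + f b * w) (f a + f b * w ^ 2) k).2.1 =
      x ^ e * lm f (emb F (pr a b k).2.2) ∧
    ev (1 + x) (ph (f a + f b * w) (f a + f b * w ^ 2) k).2.2 =
      x ^ e * (lm f (emb F (pr a b k).1) + HahnSeries.C w ^ 2 * lm f (emb F (pr a b k).2.1)) := by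
  induction k with
  | zero =>
    refine ⟨0, ?_, ?_, ?_⟩ <;>
      simp only [ph, pr, emb_eq, ev_C, lm_C, map_add, map_mul, map_pow, map_one, pow_zero,
        one_mul, mul_comm]
  | succ k ih =>
    have := charL (F := E)
    obtain ⟨e, h0, h1, h2⟩ := ih
    have hC := hCw hw
    rw [map_pow] at hx
    have eX : lm f (emb F X) = uu E 1 := by rw [emb_eq, ev_X, lm_uu]
    refine ⟨2 * e + 2, ?_, ?_, ?_⟩ <;>
      simp only [ph, pr, map_mul, map_pow, map_add, map_one, ev_X, eX, h0, h1, h2, pow_add,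
        pow_mul'] <;>
      generalize x ^ e = y <;> grind

theorem transfer' (hw : w ^ 2 + w + 1 = 0) (f : F →+* E) {x : LaurentSeries E}
    (hx : x * (uu E 1 + HahnSeries.C (w ^ 2)) = 1) (vx : vv x = exp (-1)) (a b : F) (k N D : ℕ)
    {v0 v1 v2 : F[X]} {Y0 Y1 Y2 : E[X]}
    (h : (X - C 1) ^ N ∣ (pr a b k).2.1 * v0 +
      ((pr a b k).1 + (pr a b k).2.1 + (pr a b k).2.2) * v1 + (pr a b k).1 * v2)
    (e0 : ev (1 + x) Y0 = x ^ D * (lm f (emb F v0) + HahnSeries.C w * lm f (emb F v1) +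
      HahnSeries.C w ^ 2 * lm f (emb F v2)))
    (e1 : ev (1 + x) Y1 = x ^ D * lm f (emb F v1))
    (e2 : ev (1 + x) Y2 = x ^ D * (lm f (emb F v0) + HahnSeries.C w ^ 2 * lm f (emb F v1) +
      HahnSeries.C w * lm f (emb F v2))) :
    (X - C w) ^ N ∣ (ph (f a + f b * w) (f a + f b * w ^ 2) k).1 * Y0 +
      (ph (f a + f b * w) (f a + f b * w ^ 2) k).2.1 * Y1 +
      (ph (f a + f b * w) (f a + f b * w ^ 2) k).2.2 * Y2 := by
  have := charL (F := E)
  obtain ⟨q, hq⟩ := h
  obtain ⟨e, f0, f1, f2⟩ := pr_ph hw f hx a b k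
  obtain ⟨D', hD'⟩ := homog' hx (q.map f)
  obtain ⟨H, -, hH⟩ := hD' D' le_rfl
  have hc : IsCoprime ((X - C w) ^ N) ((X - C 1 : E[X]) ^ (N + D')) :=
    (isCoprime_X_sub_C_of_isUnit_sub (IsUnit.mk0 _ (sub_ne_zero.mpr (w1 hw)))).pow
  refine hc.dvd_of_dvd_mul_left ⟨C w ^ N * (X - C 1) ^ (e + D) * H, ev_s_inj' vx ?_⟩
  have hq' := congrArg (fun p => lm f (emb F p)) hq
  have hC := hCw hw
  rw [map_pow] at hx
  have k1 : x * (uu E 1 - 1) = (1 + x - HahnSeries.C w) * HahnSeries.C w := by grind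
  have k2 := congrArg (· ^ N) k1
  have eX : lm f (emb F X) = uu E 1 := by rw [emb_eq, ev_X, lm_uu]
  simp only [mul_pow] at k2
  simp only [map_mul, map_add, map_pow, map_sub, map_one, eX] at hq'
  simp only [map_mul, map_add, map_pow, map_sub, ev_X, ev_C, map_one, add_sub_cancel_left, e0, e1,
    e2, f0, f1, f2, hH, pow_add, ← lm_emb]
  generalize lm f (emb F (pr a b k).1) = A at *
  generalize lm f (emb F (pr a b k).2.1) = B at *
  generalize lm f (emb F (pr a b k).2.2) = G at *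
  have k3 : (A + HahnSeries.C w * B) * (lm f (emb F v0) + HahnSeries.C w * lm f (emb F v1) +
      HahnSeries.C w ^ 2 * lm f (emb F v2)) + G * lm f (emb F v1) +
      (A + HahnSeries.C w ^ 2 * B) * (lm f (emb F v0) + HahnSeries.C w ^ 2 * lm f (emb F v1) +
      HahnSeries.C w * lm f (emb F v2)) =
      B * lm f (emb F v0) + (A + B + G) * lm f (emb F v1) + A * lm f (emb F v2) := by
    clear * - hC this
    grind
  linear_combination (x ^ N * x ^ D' * x ^ e * x ^ D) * (k3 + hq') +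
    (x ^ D' * x ^ e * x ^ D * lm f (emb F q)) * k2

theorem exists_ind' [Finite F] [CharP F 2] (hw : w ^ 2 + w + 1 = 0) (f : F →+* E)
    (hc : 16 < Nat.card F) : ∃ a b : F, Ind (f a + f b * w) (f a + f b * w ^ 2) ∧ a ≠ 0 ∧ b ≠ 0 ∧
      a + b ≠ 0 ∧ a ^ 2 + a * b + b ^ 2 ≠ 1 := by
  classical
  have := Fintype.ofFinite F
  rw [Nat.card_eq_fintype_card] at hc
  set S : Finset E := {0, 1, w, w ^ 2} with hS
  have hS4 : S.card ≤ 4 := Finset.card_le_four
  have mem : ∀ c : E, c ^ 4 = c → c ∈ S := by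
    intro c h
    have : c * (c - 1) * (c - w) * (c - w ^ 2) = 0 := by grind
    simpa [hS, sub_eq_zero, or_assoc] using this
  have hT : (Finset.univ.image f).card = Fintype.card F := by
    rw [Finset.card_image_of_injective _ f.injective, Finset.card_univ]
  obtain ⟨t0, m0, h0⟩ := Finset.exists_mem_notMem_of_card_lt_card (s := S)
    (t := Finset.univ.image f) (by omega)
  obtain ⟨t2, m2, h2⟩ := Finset.exists_mem_notMem_of_card_lt_card
    (s := (S ×ˢ S).image fun p => t0 * p.1 + p.2) (t := Finset.univ.image f) (by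
      refine Finset.card_image_le.trans_lt ?_
      rw [Finset.card_product, hT]
      exact (Nat.mul_le_mul hS4 hS4).trans_lt hc)
  have hi : Ind t0 t2 := by
    intro c0 c1 c2 a0 a1 a2 h
    have dv : ∀ x y : E, x ^ 4 = x → y ^ 4 = y → x / y ∈ S := fun x y hx hy =>
      mem _ (by rw [div_pow, hx, hy])
    have b2 : c2 = 0 := by
      by_contra b
      refine h2 (Finset.mem_image.mpr ⟨(c0 / c2, c1 / c2),
        Finset.mem_product.mpr ⟨dv _ _ a0 a2, dv _ _ a1 a2⟩, ?_⟩)
      field_simp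
      linear_combination (norm := grind) h
    have b0 : c0 = 0 := by
      by_contra b
      refine h0 ?_
      have : t0 = c1 / c0 := by
        rw [b2] at h
        field_simp
        linear_combination (norm := grind) h
      rw [this]
      exact dv _ _ a1 a0
    rw [b0, b2] at h
    exact ⟨b0, by simpa using h, b2⟩
  obtain ⟨a, -, rfl⟩ := Finset.mem_image.mp m0
  obtain ⟨b, -, rfl⟩ := Finset.mem_image.mp m2
  have ad : ∀ x y : E, (x + y) ^ 4 = x ^ 4 + y ^ 4 := fun x y => by grind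
  have h4 : w ^ 4 = w := by grind
  have h8 : (w ^ 2) ^ 4 = w ^ 2 := by grind
  have key : ∀ a b : F, Ind (f a) (f b) → Ind (f a + f b * w) (f a + f b * w ^ 2) ∧ a ≠ 0 ∧ b ≠ 0 ∧
      a + b ≠ 0 := by
    intro a b hi
    refine ⟨fun c0 c1 c2 a0 a1 a2 h => ?_, fun h => ?_, fun h => ?_, fun h => ?_⟩
    · obtain ⟨b0, b1, b2⟩ := hi (c0 + c2) c1 (w * c0 + w ^ 2 * c2) (by rw [ad, a0, a2]) a1
        (by rw [ad, mul_pow, mul_pow, h4, h8, a0, a2]) (by linear_combination h)
      refine ⟨?_, b1, ?_⟩ <;> clear * - b0 b2 hw <;> grind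
    · simpa using (hi 1 0 0 (by simp) (by simp) (by simp) (by simp [h])).1
    · simpa using (hi 0 0 1 (by simp) (by simp) (by simp) (by simp [h])).2.2
    · simpa using (hi 1 0 1 (by simp) (by simp) (by simp) (by
        rw [mul_one, mul_one, add_zero, ← map_add, h, map_zero])).1
  by_cases h : a ^ 2 + a * b + b ^ 2 = 1
  · have hi' : Ind (f (a + 1)) (f b) := fun c0 c1 c2 a0 a1 a2 k => by
      rw [map_add, map_one] at k
      obtain ⟨b0, b1, b2⟩ := hi c0 (c0 + c1) c2 a0 (by rw [ad, a0, a1]) a2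
        (by linear_combination k)
      exact ⟨b0, by rwa [b0, zero_add] at b1, b2⟩
    obtain ⟨k1, k2, k3, k4⟩ := key _ _ hi'
    refine ⟨a + 1, b, k1, k2, k3, k4, fun k => ?_⟩
    have hb : b = 1 := by linear_combination (norm := grind) k - h
    simpa using (hi 0 1 1 (by simp) (by simp) (by simp) (by
      rw [hb, map_one]; grind)).2.2
  · obtain ⟨k1, k2, k3, k4⟩ := key _ _ hi
    exact ⟨a, b, k1, k2, k3, k4, h⟩

end Pool.Agent.MP_c07293_an.H17
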