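import Pool.Agent.MP_c07293_an.H17.Step

/-! The first lattice and the whole family. -/

namespace Pool.Agent.MP_c07293_an.H17

open Polynomial

variable {F : Type} [Field F]

theorem rem_zero {w v0 v1 v2 : F} (h : X ^ 3 - C w ∣ C v0 + C v1 * X + C v2 * X ^ 2) :
    v0 = 0 ∧ v1 = 0 ∧ v2 = 0 := by
  have h1 : (C v0 + C v1 * X + C v2 * X ^ 2 : F[X]).natDegree ≤ 2 := by compute_degree
  have h2 := eq_zero_of_dvd_of_natDegree_lt h (by rw [natDegree_X_pow_sub_C]; omega)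
  have a0 := congrArg (coeff · 0) h2
  have a1 := congrArg (coeff · 1) h2
  have a2 := congrArg (coeff · 2) h2
  simp [coeff_X, coeff_C, coeff_X_pow] at a0 a1 a2
  exact ⟨a0, a1, a2⟩

theorem expand_rem (w : F) (y : F[X]) : X ^ 3 - C w ∣ expand F 3 y - C (eval w y) := by
  have := map_dvd (expand F 3) (X_sub_C_dvd_sub_C_eval (a := w) (p := y))
  simpa using this

variable [CharP F 2] {w : F}

theorem red (hw : w ^ 2 + w + 1 = 0) {y0 y1 y2 : F[X]} (hG : ll y0 y1 y2 ≠ 0)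
    (hz : zz w (ll y0 y1 y2) ≤ 1) : ∃ c0 c1 c2 h0 h1 : F, c0 ^ 4 = c0 ∧ c1 ^ 4 = c1 ∧ c2 ^ 4 = c2 ∧
      ¬ (c0 = 0 ∧ c1 = 0 ∧ c2 = 0) ∧ ¬ (h0 = 0 ∧ h1 = 0) ∧ (zz w (ll y0 y1 y2) ≤ 0 → h1 = 0) ∧
      eval w y0 = h0 * c0 + h1 * (w * c2) ∧ eval w y1 = h0 * c1 + h1 * c0 ∧
      eval w y2 = h0 * c2 + h1 * c1 := by
  obtain ⟨η, H, ⟨c0, c1, c2, a0, a1, a2, hc, q, hq⟩, e, hd⟩ := strip hw
    (fun η => ∃ c0 c1 c2 : F, c0 ^ 4 = c0 ∧ c1 ^ 4 = c1 ∧ c2 ^ 4 = c2 ∧
      ¬ (c0 = 0 ∧ c1 = 0 ∧ c2 = 0) ∧ X ^ 3 - C w ∣ η - (C c0 + C c1 * X + C c2 * X ^ 2))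
    ⟨1, 0, 0, by simp, by simp, by simp, by simp, by simp⟩
    (by
      rintro r η hr ⟨c0, c1, c2, a0, a1, a2, hc, q, hq⟩
      have h4 : w ^ 4 = w := by grind
      have ad : ∀ x y : F, (x - y) ^ 4 = x ^ 4 - y ^ 4 := fun x y => by grind
      refine ⟨w * c2 - r * c0, c0 - r * c1, c1 - r * c2, ?_, ?_, ?_, ?_,
        (X - C r) * q + C c2, ?_⟩
      · rw [ad, mul_pow, mul_pow, h4, hr, a0, a2]
      · rw [ad, mul_pow, hr, a0, a1]
      · rw [ad, mul_pow, hr, a1, a2]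
      · rintro ⟨b0, b1, b2⟩
        have k : (w - r ^ 3) * c2 = 0 := by linear_combination b0 + r * b1 + r ^ 2 * b2
        have k1 : w - r ^ 3 ≠ 0 := by
          intro h
          have : w = r ^ 3 := sub_eq_zero.mp h
          have k2 : w ^ 2 = w := by rw [this]; linear_combination r ^ 2 * hr
          exact w2w hw k2
        have k2 := (mul_eq_zero.mp k).resolve_left k1
        rw [k2, mul_zero, sub_zero] at b2
        rw [b2, mul_zero, sub_zero] at b1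
        exact hc ⟨b1, b2, k2⟩
      · simp only [C_sub, C_mul]
        linear_combination (X - C r) * hq) _ hG
  have hH : H.natDegree ≤ 1 := by omega
  have eH := eq_X_add_C_of_natDegree_le_one hH
  obtain ⟨q0, e0⟩ := expand_rem w y0
  obtain ⟨q1, e1⟩ := expand_rem w y1
  obtain ⟨q2, e2⟩ := expand_rem w y2
  have hn : ¬ (H.coeff 0 = 0 ∧ H.coeff 1 = 0) := by
    rintro ⟨b0, b1⟩
    rw [b0, b1] at eH
    rw [e, eH] at hG
    simp at hG
  have hk : zz w (ll y0 y1 y2) ≤ 0 → H.coeff 1 = 0 := fun h =>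
    coeff_eq_zero_of_natDegree_lt (by omega)
  generalize H.coeff 0 = h0 at *
  generalize H.coeff 1 = h1 at *
  obtain ⟨r0, r1, r2⟩ := rem_zero (w := w) (v0 := eval w y0 - (h0 * c0 + h1 * (w * c2)))
    (v1 := eval w y1 - (h0 * c1 + h1 * c0)) (v2 := eval w y2 - (h0 * c2 + h1 * c1))
    ⟨q * H + C h1 * C c2 - (q0 + X * q1 + X ^ 2 * q2), by
      rw [ll] at e
      simp only [C_sub, C_add, C_mul]
      linear_combination e - e0 - X * e1 - X ^ 2 * e2 + H * hq +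
        (C c0 + C c1 * X + C c2 * X ^ 2) * eH⟩
  exact ⟨c0, c1, c2, h0, h1, a0, a1, a2, hc, hn, hk, sub_eq_zero.mp r0,
    sub_eq_zero.mp r1, sub_eq_zero.mp r2⟩

/-- independence over the field with four elements -/
def Ind (t0 t2 : F) : Prop := ∀ c0 c1 c2 : F, c0 ^ 4 = c0 → c1 ^ 4 = c1 → c2 ^ 4 = c2 →
  t0 * c0 + c1 + t2 * c2 = 0 → c0 = 0 ∧ c1 = 0 ∧ c2 = 0

theorem cross_ne (hw : w ^ 2 + w + 1 = 0) {c0 c1 c2 : F} (a0 : c0 ^ 4 = c0) (a1 : c1 ^ 4 = c1)
    (n0 : c1 * c1 + c2 * c0 = 0) (n1 : w * c2 * c2 + c0 * c1 = 0)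
    (n2 : c0 * c0 + w * c1 * c2 = 0) : c0 = 0 ∧ c1 = 0 ∧ c2 = 0 := by
  have k : c0 ^ 3 = w * c1 ^ 3 := by linear_combination (norm := grind) c0 * n2 + w * c1 * n0
  have k1 : (w ^ 2 - w) * c1 ^ 3 = 0 := by
    have b0 : (c0 ^ 3) ^ 2 = c0 ^ 3 := by linear_combination c0 ^ 2 * a0
    rw [k] at b0
    linear_combination b0 - w ^ 2 * c1 ^ 2 * a1
  have k2 : c1 = 0 := pow_eq_zero_iff three_ne_zero |>.mp
    ((mul_eq_zero.mp k1).resolve_left (sub_ne_zero.mpr (w2w hw)))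
  rw [k2, mul_zero, zero_mul, add_zero, mul_self_eq_zero] at n2
  rw [k2, mul_zero, add_zero, mul_assoc, mul_eq_zero, mul_self_eq_zero] at n1
  exact ⟨n2, k2, n1.resolve_left (w0 hw)⟩

theorem seed (hw : w ^ 2 + w + 1 = 0) {t0 t2 : F} (hi : Ind t0 t2) :
    QM w (C t0) 1 (C t2) (X - C w) 1 ∧ QD w (C t0) 1 (C t2) (X - C w) (2 * 1) := by
  constructor
  · intro y0 y1 y2 hG hy
    by_contra hz
    obtain ⟨c0, c1, c2, h0, h1, a0, a1, a2, hc, hh, k, e0, e1, e2⟩ := red hw hG (by omega)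
    have k1 := k (by omega)
    rw [dvd_iff_isRoot] at hy
    simp only [IsRoot.def, eval_add, eval_mul, eval_C, eval_one, e0, e1, e2, k1] at hy
    have k2 : h0 * (t0 * c0 + c1 + t2 * c2) = 0 := by linear_combination hy
    exact hc (hi c0 c1 c2 a0 a1 a2 ((mul_eq_zero.mp k2).resolve_left fun h => hh ⟨h, k1⟩))
  · rintro y0 y1 y2 hG ⟨c, k0, k1, k2⟩
    by_contra hz
    obtain ⟨c0, c1, c2, h0, h1, a0, a1, a2, hc, hh, -, e0, e1, e2⟩ := red hw hG (by omega)
    rw [dvd_iff_isRoot] at k0 k1 k2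
    simp only [IsRoot.def, eval_add, eval_mul, eval_C, eval_one, e0, e1, e2] at k0 k1 k2
    generalize eval w c = κ at k0 k1 k2
    have h4 : w ^ 4 = w := by grind
    have ad : ∀ x y : F, (x + y) ^ 4 = x ^ 4 + y ^ 4 := fun x y => by grind
    refine hc ?_
    by_cases hκ : κ = 0
    · rw [hκ] at k0 k1 k2
      by_cases b : h1 = 0
      · have b0 : h0 ≠ 0 := fun h => hh ⟨h, b⟩
        rw [b] at k0 k1 k2
        simp only [zero_mul, add_zero, mul_eq_zero, b0, false_or] at k0 k1 k2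
        exact ⟨k0, k1, k2⟩
      · refine cross_ne hw a0 a1 (mul_left_cancel₀ b ?_) (mul_left_cancel₀ b ?_)
          (mul_left_cancel₀ b ?_)
        · linear_combination (norm := grind) c1 * k2 + c2 * k1
        · linear_combination (norm := grind) c2 * k0 + c0 * k2
        · linear_combination (norm := grind) c0 * k1 + c1 * k0
    · obtain ⟨n2, n1, n0⟩ := hi (c0 * c0 + w * c1 * c2) (w * c2 * c2 + c0 * c1) (c1 * c1 + c2 * c0)
        (by simp only [ad, mul_pow, h4, a0, a1, a2]) (by simp only [ad, mul_pow, h4, a0, a1, a2])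
        (by simp only [ad, mul_pow, a0, a1, a2]) (mul_left_cancel₀ hκ (by
          linear_combination (norm := grind) (c1 * c1 + c2 * c0) * k0 +
            (w * c2 * c2 + c0 * c1) * k1 + (c0 * c0 + w * c1 * c2) * k2))
      exact cross_ne hw a0 a1 n0 n1 n2

theorem exists_ind [Finite F] (hw : w ^ 2 + w + 1 = 0) (hc : 16 < Nat.card F) :
    ∃ t0 t2 : F, Ind t0 t2 ∧ t0 * t2 ≠ 1 := by
  classical
  have := Fintype.ofFinite F
  rw [Nat.card_eq_fintype_card] at hc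
  set S : Finset F := {0, 1, w, w ^ 2} with hS
  have hS4 : S.card ≤ 4 := Finset.card_le_four
  have mem : ∀ c : F, c ^ 4 = c → c ∈ S := by
    intro c h
    have : c * (c - 1) * (c - w) * (c - w ^ 2) = 0 := by grind
    simpa [hS, sub_eq_zero, or_assoc] using this
  obtain ⟨t0, -, h0⟩ := Finset.exists_mem_notMem_of_card_lt_card (s := S) (t := Finset.univ)
    (by rw [Finset.card_univ]; omega)
  obtain ⟨t2, -, h2⟩ := Finset.exists_mem_notMem_of_card_lt_card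
    (s := (S ×ˢ S).image fun p => t0 * p.1 + p.2) (t := Finset.univ) (by
      refine Finset.card_image_le.trans_lt ?_
      rw [Finset.card_product, Finset.card_univ]
      exact (Nat.mul_le_mul hS4 hS4).trans_lt hc)
  have hi : Ind t0 t2 := by
    intro c0 c1 c2 a0 a1 a2 h
    have dv : ∀ x y : F, x ^ 4 = x → y ^ 4 = y → x / y ∈ S := fun x y hx hy =>
      mem _ (by rw [div_pow, hx, hy])
    have b2 : c2 = 0 := by
      by_contra b
      refine h2 (Finset.mem_image.mpr ⟨(c0 / c2, c1 / c2),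
        Finset.mem_product.mpr ⟨dv _ _ a0 a2, dv _ _ a1 a2⟩, ?_⟩)
      field_simp
      linear_combination (norm := grind) h
    have b0 : c0 = 0 := by
      by_contra b
      refine h0 ?_
      have : t0 = c1 / c0 := by
        rw [b2] at h
        field_simp
        linear_combination (norm := grind) h
      rw [this]
      exact dv _ _ a1 a0
    rw [b0, b2] at h
    exact ⟨b0, by simpa using h, b2⟩
  by_cases h : t0 * t2 = 1
  · refine ⟨t0, t2 + 1, fun c0 c1 c2 a0 a1 a2 k => ?_, fun k => h0 ?_⟩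
    · obtain ⟨b0, b1, b2⟩ := hi c0 (c1 + c2) c2 a0 (by grind) a2 (by linear_combination k)
      exact ⟨b0, by rwa [b2, add_zero] at b1, b2⟩
    · have : t0 = 0 := by linear_combination k - h
      simp [hS, this]
  · exact ⟨t0, t2, hi, h⟩

/-- the three coefficients of the linear form -/
noncomputable def ph (t0 t2 : F) : ℕ → F[X] × F[X] × F[X]
  | 0 => (C t0, 1, C t2)
  | k + 1 => ((ph t0 t2 k).2.2 ^ 2, X * (ph t0 t2 k).2.1 ^ 2, X ^ 2 * (ph t0 t2 k).1 ^ 2)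

theorem zz_mod (hw : w ^ 2 + w + 1 = 0) (m : ℕ) : zz w (expand F 3 ((X - C w) ^ m)) = 3 * m := by
  have e : expand F 3 (X - C w) = X ^ 3 - C w := by simp
  have h3 := w3 hw
  have h : ∀ r : F, r ^ 3 ≠ w → rootMultiplicity r (X ^ 3 - C w) = 0 := fun r hr =>
    rootMultiplicity_eq_zero (by simpa [sub_eq_zero] using hr)
  rw [map_pow, e, zz_pow w (X_pow_sub_C_ne_zero three_pos w), zz, natDegree_X_pow_sub_C,
    h 0 (by simpa using (w0 hw).symm), h 1 (by simpa using (w1 hw).symm),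
    h w (by rw [h3]; exact (w1 hw).symm), h (w ^ 2) (by grind)]
  push_cast
  ring

theorem family (hw : w ^ 2 + w + 1 = 0) (hs : ∀ a : F, IsSquare a) {t0 t2 : F} (hi : Ind t0 t2)
    (k : ℕ) : IsCoprime (ph t0 t2 k).2.1 (X - C w) ∧
      QM w (ph t0 t2 k).1 (ph t0 t2 k).2.1 (ph t0 t2 k).2.2 ((X - C w) ^ 2 ^ k) (2 ^ k) ∧
      QD w (ph t0 t2 k).1 (ph t0 t2 k).2.1 (ph t0 t2 k).2.2 ((X - C w) ^ 2 ^ k) (2 * 2 ^ k) := by
  induction k with
  | zero => exact ⟨isCoprime_one_left, by simpa [ph] using seed hw hi⟩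
  | succ k ih =>
    obtain ⟨h0, h1, h2⟩ := ih
    refine ⟨IsCoprime.mul_left ?_ h0.pow_left, ?_⟩
    · simpa using isCoprime_X_sub_C_of_isUnit_sub (a := 0) (b := w)
        (by simpa using IsUnit.mk0 _ (w0 hw))
    · have := step hw hs h0.pow_right (by rw [zz_mod hw]; push_cast; rfl) h1 h2
      rwa [← pow_mul, ← pow_succ, ← pow_succ'] at this

end Pool.Agent.MP_c07293_an.H17
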