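import Pool.Agent.MP_c07293_an.H82.Mahler
import Pool.Agent.MP_c07293_an.H17.Seed

/-! Passage to Laurent series. -/

namespace Pool.Agent.MP_c07293_an.H17

open Polynomial WithZero Matrix Pool.Agent.MP_c07293_an.H82

variable {F : Type} [Field F]

theorem into_CC3 (g : GL (Fin 3) (LaurentSeries F))
    (hmin : ∀ x : Fin 3 → F[X], x ≠ 0 →
      vv g.val.det ≤ (∏ i, vv ((g.val *ᵥ fun j => emb F (x j)) i)) * exp 2) :
    ∃ h ∈ CC F 3 6, (h : GL (Fin 3) (LaurentSeries F) ⧸ Gam F 3) = g := by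
  have hg : g.val.det ≠ 0 := g.det_ne_zero
  have hg' : vv g.val.det ≠ 0 := by simpa using hg
  obtain ⟨γ, d, hγ, hb, hs⟩ := reduce g.val hg
  set D := log (vv g.val.det) with hD
  rw [← exp_log hg', exp_le_exp, ← hD] at hs
  have h1 : ∀ j, D ≤ 3 * d j + 2 := by
    intro j
    have := hmin (fun i => γ i j) fun h0 =>
      hγ.ne_zero (det_eq_zero_of_column_eq_zero j fun i => congrFun h0 i)
    rw [← exp_log hg', ← hD] at this
    rw [← exp_le_exp]
    refine this.trans ?_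
    have e : (exp (3 * d j) : ℤᵐ⁰) = ∏ _i : Fin 3, exp (d j) := by
      rw [← exp_sum']; simp
    rw [exp_add, e]
    exact mul_le_mul' (Finset.prod_le_prod' fun i _ => hb i j) le_rfl
  set c : (LaurentSeries F)ˣ := Units.mk0 (uu F (-(D / 3))) (uu_ne _) with hc
  set h : GL (Fin 3) (LaurentSeries F) := g * (GeneralLinearGroup.map (emb F)
    (GeneralLinearGroup.mk'' γ hγ) * GeneralLinearGroup.scalar (Fin 3) c) with hh
  have hv : h.val = uu F (-(D / 3)) • (g.val * γ.map (emb F)) := by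
    rw [hh, ← mul_assoc, Units.val_mul, Units.val_mul, smul_eq_mul_diagonal]
    rfl
  have h2 : ∀ i j, vv (h.val i j) ≤ exp 2 := by
    intro i j
    rw [hv, Matrix.smul_apply, smul_eq_mul, map_mul, vv_uu]
    refine (mul_le_mul' le_rfl (hb i j)).trans ?_
    rw [← exp_add, exp_le_exp]
    rw [Fin.sum_univ_three] at hs
    have a0 := h1 0
    have a1 := h1 1
    have a2 := h1 2
    fin_cases j <;> simp only [Fin.zero_eta, Fin.mk_one, Fin.reduceFinMk, Fin.isValue] <;> omega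
  have h3 : 1 ≤ vv h.val.det := by
    rw [hv, det_smul, det_mul, map_mul, map_mul, map_pow, vv_uu, ← RingHom.mapMatrix_apply,
      ← RingHom.map_det, vv_unit hγ, mul_one, ← exp_log hg', ← hD, ← WithZero.exp_nsmul, ← exp_add,
      ← exp_zero, exp_le_exp]
    simp only [Fintype.card_fin, nsmul_eq_mul, Nat.cast_ofNat]
    omega
  refine ⟨h, ⟨fun i j => (h2 i j).trans (exp_le_exp.mpr (by norm_num)), fun i j => ?_⟩,
    QuotientGroup.mk_mul_of_mem _
      (Subgroup.mul_mem _ (Subgroup.mem_sup_right ⟨_, rfl⟩) (scalar_mem c))⟩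
  rw [GeneralLinearGroup.coe_inv, inv_def, Matrix.smul_apply, smul_eq_mul, map_mul,
    Ring.inverse_eq_inv', map_inv₀, adjugate_apply]
  have h4 := det_le (h.val.updateRow j (Pi.single i 1)) (fun _ => 2) fun a b => by
    rw [updateRow_apply]
    split_ifs
    · rw [Pi.single_apply]
      split_ifs
      · rw [map_one, ← exp_zero, exp_le_exp]; norm_num
      · simp
    · exact h2 a b
  calc _ ≤ 1 * exp (∑ _j : Fin 3, (2 : ℤ)) := mul_le_mul' (inv_le_one_of_one_le₀ h3) h4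
    _ = _ := by simp

theorem vv_C_le (a : F) : vv (HahnSeries.C a : LaurentSeries F) ≤ 1 := H82.coe_C a ▸ vv_coe _

theorem exp_neg_lt : (exp (-1 : ℤ) : ℤᵐ⁰) < 1 := by rw [← exp_zero, exp_lt_exp]; norm_num

theorem ev_le_one {t : LaurentSeries F} (ht : vv t ≤ 1) (p : F[X]) : vv (ev t p) ≤ 1 := by
  induction p using Polynomial.induction_on with
  | C a => rw [ev_C]; exact vv_C_le a
  | add p q hp hq => rw [map_add]; exact Valuation.map_add_le _ hp hq
  | monomial n a h => rw [pow_succ, ← mul_assoc, map_mul, map_mul vv, ev_X]; exact mul_le_one' h ht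

theorem val_ev {t : LaurentSeries F} {r : F} (ht : vv (t - HahnSeries.C r) = exp (-1)) {G : F[X]}
    (hG : G ≠ 0) : vv (ev t G) = exp (-(G.rootMultiplicity r : ℤ)) := by
  obtain ⟨q, hq, hn⟩ := exists_eq_pow_rootMultiplicity_mul_and_not_dvd G hG r
  obtain ⟨q', hq'⟩ := X_sub_C_dvd_sub_C_eval (a := r) (p := q)
  have h0 : eval r q ≠ 0 := fun h => hn (dvd_iff_isRoot.mpr h)
  have h1 : vv t ≤ 1 := by
    rw [← sub_add_cancel t (HahnSeries.C r)]
    exact Valuation.map_add_le _ (ht.trans_le exp_neg_lt.le) (vv_C_le r)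
  have h2 : vv (ev t q) = 1 := by
    rw [eq_add_of_sub_eq' hq', map_add, ev_C, Valuation.map_add_eq_of_lt_left, vv_C h0]
    rw [vv_C h0, map_mul, map_mul, map_sub, ev_X, ev_C, ht]
    exact (mul_le_mul' le_rfl (ev_le_one h1 q')).trans_lt (by rw [mul_one]; exact exp_neg_lt)
  generalize G.rootMultiplicity r = m at hq
  rw [hq, map_mul, map_mul, h2, map_pow, map_pow, map_sub, ev_X, ev_C, ht, mul_one,
    ← WithZero.exp_nsmul]
  simp

theorem xu : uu F (-1) * uu F 1 = 1 := by rw [← uu_add]; exact uu_zero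

theorem ev_s_inj : Function.Injective (ev (1 + uu F (-1))) := by
  rw [injective_iff_map_eq_zero]
  intro f hf
  by_contra h
  have := val_ev (t := 1 + uu F (-1)) (r := 1) (by simpa using vv_uu (F := F) (-1)) h
  rw [hf, map_zero] at this
  exact exp_ne_zero this.symm

theorem homog (p : F[X]) : ∃ D0 : ℕ, ∀ D, D0 ≤ D → ∃ P : F[X], P.natDegree ≤ D ∧
    ev (1 + uu F (-1)) P = uu F (-1) ^ D * emb F p := by
  induction p using Polynomial.induction_on with
  | C a =>
    refine ⟨0, fun D _ => ⟨(X - C 1) ^ D * C a, ?_, ?_⟩⟩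
    · refine (natDegree_mul_C_le _ _).trans ?_
      rw [natDegree_pow, natDegree_X_sub_C, mul_one]
    · simp [emb_eq]
  | add p q hp hq =>
    obtain ⟨a, h1⟩ := hp
    obtain ⟨b, h2⟩ := hq
    refine ⟨max a b, fun j hj => ?_⟩
    obtain ⟨c, d1, h1⟩ := h1 j (le_of_max_le_left hj)
    obtain ⟨d, d2, h2⟩ := h2 j (le_of_max_le_right hj)
    exact ⟨c + d, (natDegree_add_le _ _).trans (max_le d1 d2), by
      simp only [map_add, h1, h2]; ring⟩
  | monomial m a h =>
    obtain ⟨j0, h⟩ := h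
    refine ⟨j0 + 1, fun j hj => ?_⟩
    obtain ⟨i, rfl⟩ : ∃ i, j = i + 1 := ⟨j - 1, by omega⟩
    obtain ⟨p, d, h⟩ := h i (by omega)
    refine ⟨p, by omega, ?_⟩
    rw [pow_succ X m, ← mul_assoc, h, map_mul (emb F) _ X, emb_eq, ev_X]
    linear_combination (-(uu F (-1) ^ i * ev (uu F 1) (C a * X ^ m))) * xu (F := F)

theorem ev_expand (t : LaurentSeries F) (p : F[X]) : ev t (expand F 3 p) = ev (t ^ 3) p := by
  induction p using Polynomial.induction_on with
  | C a => simp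
  | add p q hp hq => simp only [map_add, hp, hq]
  | monomial n a _ => simp

/-- the coefficients of the linear form in the variable `u` -/
noncomputable def ps (t0 t2 : F) : ℕ → F[X] × F[X] × F[X]
  | 0 => (C t0, 1, C t2)
  | k + 1 => (X ^ 2 * (ps t0 t2 k).2.2 ^ 2, X * (X + 1) * (ps t0 t2 k).2.1 ^ 2,
      (X + 1) ^ 2 * (ps t0 t2 k).1 ^ 2)

theorem ps_ph (t0 t2 : F) (k : ℕ) : ∃ E : ℕ,
    ev (1 + uu F (-1)) (ph t0 t2 k).1 = uu F (-1) ^ E * emb F (ps t0 t2 k).1 ∧
    ev (1 + uu F (-1)) (ph t0 t2 k).2.1 = uu F (-1) ^ E * emb F (ps t0 t2 k).2.1 ∧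
    ev (1 + uu F (-1)) (ph t0 t2 k).2.2 = uu F (-1) ^ E * emb F (ps t0 t2 k).2.2 := by
  induction k with
  | zero => exact ⟨0, by simp [ph, ps, emb_eq]⟩
  | succ k ih =>
    obtain ⟨E, h0, h1, h2⟩ := ih
    have h := xu (F := F)
    have eX : emb F X = uu F 1 := by rw [emb_eq, ev_X]
    refine ⟨2 * E + 2, ?_, ?_, ?_⟩ <;>
      simp only [ph, ps, map_mul, map_pow, map_add, map_one, ev_X, eX, h0, h1, h2, pow_add,
        pow_mul'] <;>
      generalize uu F (-1) ^ E = y <;> grind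

variable [CharP F 2]

theorem charL : CharP (LaurentSeries F) 2 :=
  charP_of_injective_ringHom (f := (HahnSeries.C : F →+* LaurentSeries F))
    HahnSeries.C_injective 2

theorem exists_cbrt : ∃ T : LaurentSeries F, T ^ 3 = 1 + uu F (-1) ∧ vv (T - 1) = exp (-1) := by
  have := charL (F := F)
  obtain ⟨f, hf'⟩ := (LaurentSeries.val_le_one_iff_eq_coe F (uu F (-1))).mp
    ((vv_uu (-1)).trans_le exp_neg_lt.le)
  have hf : PowerSeries.constantCoeff f = 0 := (vv_coe_lt f).mp (by rw [hf', vv_uu])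
  have hm : (X ^ 3 - C (1 + f) : (PowerSeries F)[X]).Monic := monic_X_pow_sub_C _ three_ne_zero
  obtain ⟨T, hT, hT1⟩ := HenselianRing.is_henselian
    (I := Ideal.span {(PowerSeries.X : PowerSeries F)}) _ hm 1 (by
      rw [Ideal.mem_span_singleton, PowerSeries.X_dvd_iff]
      simp [hf]) (by
      refine IsUnit.map _ ?_
      have h3 : (3 : F) ≠ 0 := by grind
      have : IsUnit (PowerSeries.C (3 : F)) := (IsUnit.mk0 _ h3).map _
      rw [map_ofNat] at this
      have e : eval 1 (derivative (X ^ 3 - C (1 + f) : (PowerSeries F)[X])) = 3 := by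
        simp; norm_num
      rwa [e])
  have h1 : (T : LaurentSeries F) ^ 3 = 1 + uu F (-1) := by
    have h1 : T ^ 3 = 1 + f := by
      have := hT.eq_zero
      simp only [eval_sub, eval_pow, eval_X, eval_C] at this
      exact sub_eq_zero.mp this
    have := congrArg (HahnSeries.ofPowerSeries ℤ F) h1
    simpa [← hf'] using this
  refine ⟨T, h1, ?_⟩
  rw [Ideal.mem_span_singleton, PowerSeries.X_dvd_iff, ← vv_coe_lt, map_sub, map_one] at hT1
  have h2 : vv (1 + (T : LaurentSeries F) * ((T : LaurentSeries F) - 1)) = 1 := by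
    rw [Valuation.map_add_eq_of_lt_left, map_one]
    rw [map_one, map_mul]
    exact (mul_le_mul' (vv_coe T) hT1).trans_lt (by rw [one_mul]; exact exp_neg_lt)
  have h3 : ((T : LaurentSeries F) - 1) *
      (1 + (T : LaurentSeries F) * ((T : LaurentSeries F) - 1)) = uu F (-1) := by
    linear_combination (norm := grind) h1
  have := congrArg vv h3
  rwa [map_mul, h2, mul_one, vv_uu] at this

theorem ps_eval {w : F} (hw : w ^ 2 + w + 1 = 0) {t0 t2 : F} (h : t0 * t2 ≠ 1) (k : ℕ) :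
    eval w (ps t0 t2 k).2.1 ≠ 0 ∧
      eval w (ps t0 t2 k).2.1 ^ 2 ≠ eval w (ps t0 t2 k).1 * eval w (ps t0 t2 k).2.2 := by
  induction k with
  | zero => simpa [ps] using h.symm
  | succ k ih =>
    have a0 := w0 hw
    have a1 : w + 1 ≠ 0 := by grind
    simp only [ps, eval_mul, eval_pow, eval_add, eval_X, eval_one]
    refine ⟨mul_ne_zero (mul_ne_zero a0 a1) (pow_ne_zero _ ih.1), fun e => ih.2 ?_⟩
    generalize eval w (ps t0 t2 k).1 = x at *
    generalize eval w (ps t0 t2 k).2.1 = y at *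
    generalize eval w (ps t0 t2 k).2.2 = z at *
    have e1 : (w * (w + 1)) ^ 2 * (y ^ 2 - x * z) ^ 2 = 0 := by
      linear_combination (norm := grind) e
    exact sub_eq_zero.mp (pow_eq_zero_iff two_ne_zero |>.mp
      ((mul_eq_zero.mp e1).resolve_left (pow_ne_zero _ (mul_ne_zero a0 a1))))

theorem transfer {w : F} (hw : w ^ 2 + w + 1 = 0) (t0 t2 : F) (k N D : ℕ)
    {y0 y1 y2 Y0 Y1 Y2 : F[X]}
    (h : (X - C w) ^ N ∣ (ps t0 t2 k).1 * y0 + (ps t0 t2 k).2.1 * y1 + (ps t0 t2 k).2.2 * y2)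
    (e0 : ev (1 + uu F (-1)) Y0 = uu F (-1) ^ D * emb F y0)
    (e1 : ev (1 + uu F (-1)) Y1 = uu F (-1) ^ D * emb F y1)
    (e2 : ev (1 + uu F (-1)) Y2 = uu F (-1) ^ D * emb F y2) :
    (X - C w) ^ N ∣ (ph t0 t2 k).1 * Y0 + (ph t0 t2 k).2.1 * Y1 + (ph t0 t2 k).2.2 * Y2 := by
  have := charL (F := F)
  obtain ⟨q, hq⟩ := h
  obtain ⟨E, f0, f1, f2⟩ := ps_ph t0 t2 k
  obtain ⟨D', hD'⟩ := homog q
  obtain ⟨H, -, hH⟩ := hD' D' le_rfl
  have hc : IsCoprime ((X - C w) ^ N) ((X - C 1 : F[X]) ^ (N + D')) :=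
    (isCoprime_X_sub_C_of_isUnit_sub (IsUnit.mk0 _ (sub_ne_zero.mpr (w1 hw)))).pow
  refine hc.dvd_of_dvd_mul_left ⟨C w ^ N * (X - C 1) ^ (E + D) * H, ev_s_inj ?_⟩
  have hq' := congrArg (emb F) hq
  have hC : (HahnSeries.C w : LaurentSeries F) ^ 2 + HahnSeries.C w + 1 = 0 := by
    simpa using congrArg (HahnSeries.C : F →+* LaurentSeries F) hw
  have k1 : uu F (-1) * (uu F 1 - HahnSeries.C w) =
      (1 + uu F (-1) - HahnSeries.C w) * HahnSeries.C w := by
    linear_combination (norm := grind) xu (F := F) + hC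
  have k2 := congrArg (· ^ N) k1
  simp only [mul_pow] at k2
  simp only [map_mul, map_add, map_pow, map_sub, emb_eq, ev_X, ev_C] at hq'
  simp only [map_mul, map_add, map_pow, map_sub, ev_X, ev_C, map_one, add_sub_cancel_left, e0, e1,
    e2, f0, f1, f2, hH, pow_add, emb_eq]
  linear_combination (uu F (-1) ^ N * uu F (-1) ^ D' * uu F (-1) ^ E * uu F (-1) ^ D) * hq' +
    (uu F (-1) ^ D' * uu F (-1) ^ E * uu F (-1) ^ D * ev (uu F 1) q) * k2

end Pool.Agent.MP_c07293_an.H17
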