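import Pool.Agent.MP_c07293_an.H17.Lau

/-! The family of periodic orbits in one compact set, in dimension three. -/

namespace Pool.Agent.MP_c07293_an.H17

open Polynomial WithZero Matrix Pool.Agent.MP_c07293_an.H82

/-- the data of the construction -/
structure Dat (F : Type) [Field F] where
  w : F
  t0 : F
  t2 : F
  T : LaurentSeries F
  δ : ℕ → F[X]
  ε : ℕ → F[X]
  hw : w ^ 2 + w + 1 = 0
  hs : ∀ a : F, IsSquare a
  hi : Ind t0 t2
  hne : t0 * t2 ≠ 1
  hT : T ^ 3 = 1 + uu F (-1)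
  vT : vv (T - 1) = exp (-1)
  hδ : ∀ k, δ k * (ps t0 t2 k).2.1 + ε k * (X - C w) ^ 2 ^ k = 1

variable {F : Type} [Field F] [CharP F 2]

theorem exists_dat [Finite F] {w : F} (hw : w ^ 2 + w + 1 = 0) (hc : 16 < Nat.card F) :
    Nonempty (Dat F) := by
  obtain ⟨t0, t2, hi, hne⟩ := exists_ind hw hc
  obtain ⟨T, hT, vT⟩ := exists_cbrt (F := F)
  have h : ∀ k, IsCoprime (ps t0 t2 k).2.1 ((X - C w) ^ 2 ^ k) := fun k =>
    (((irreducible_X_sub_C w).coprime_iff_not_dvd.mpr fun h =>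
      (ps_eval hw hne k).1 (dvd_iff_isRoot.mp h)).symm).pow_right
  choose δ ε hδ using h
  exact ⟨⟨w, t0, t2, T, δ, ε, hw,
    FiniteField.isSquare_of_char_two (ringChar.eq F 2), hi, hne, hT, vT, hδ⟩⟩

variable (A : Dat F) (k : ℕ)

/-- the three cube roots of unity -/
def Dat.cc : Fin 3 → F := ![1, A.w, A.w ^ 2]

/-- the three cube roots -/
noncomputable def Dat.tt (i : Fin 3) : LaurentSeries F := HahnSeries.C (A.cc i) * A.T

/-- the modulus -/
noncomputable def Dat.P : F[X] := (X - C A.w) ^ 2 ^ k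

/-- the first shift -/
noncomputable def Dat.r0 : F[X] := A.δ k * (ps A.t0 A.t2 k).1

/-- the second shift -/
noncomputable def Dat.r2 : F[X] := A.δ k * (ps A.t0 A.t2 k).2.2

/-- the matrix of the lattice -/
noncomputable def Dat.G : Matrix (Fin 3) (Fin 3) (LaurentSeries F) :=
  Matrix.of fun i => ![1 + A.tt i * emb F (A.r0 k), A.tt i * emb F (A.P k),
    A.tt i * emb F (A.r2 k) + A.tt i ^ 2]

theorem Dat.cc3 (i : Fin 3) : A.cc i ^ 3 = 1 := by
  have := A.hw
  fin_cases i <;> simp only [Dat.cc, Fin.zero_eta, Fin.mk_one, Fin.reduceFinMk, cons_val] <;> grind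

theorem Dat.cc_ne (i : Fin 3) : A.cc i ≠ 0 := fun h => by
  have := A.cc3 i
  rw [h] at this
  simp at this

theorem Dat.tt3 (i : Fin 3) : A.tt i ^ 3 = 1 + uu F (-1) := by
  rw [Dat.tt, mul_pow, ← map_pow, A.cc3, map_one, one_mul, A.hT]

theorem Dat.vtt (i : Fin 3) : vv (A.tt i - HahnSeries.C (A.cc i)) = exp (-1) := by
  rw [Dat.tt, ← mul_sub_one, map_mul, vv_C (A.cc_ne i), one_mul, A.vT]

omit [CharP F 2] in
theorem vs : vv (1 + uu F (-1)) = 1 := by
  rw [Valuation.map_add_eq_of_lt_left, map_one]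
  rw [map_one, vv_uu]
  exact exp_neg_lt

omit [CharP F 2] in
theorem Dat.T_ne : A.T ≠ 0 := fun h => by
  have := congrArg vv A.hT
  rw [vs, h] at this
  simp at this

omit [CharP F 2] in
theorem Dat.hC : (HahnSeries.C A.w : LaurentSeries F) ^ 2 + HahnSeries.C A.w + 1 = 0 := by
  simpa using congrArg (HahnSeries.C : F →+* LaurentSeries F) A.hw

omit [CharP F 2] in
theorem Dat.G_mulVec (x : Fin 3 → LaurentSeries F) (i : Fin 3) : (A.G k *ᵥ x) i =
    x 0 + A.tt i * (emb F (A.r0 k) * x 0 + emb F (A.P k) * x 1 + emb F (A.r2 k) * x 2) +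
      A.tt i ^ 2 * x 2 := by
  simp [Dat.G, mulVec, dotProduct, Fin.sum_univ_three]
  ring

theorem Dat.det_G : (A.G k).det = emb F (A.P k) * (1 + uu F (-1)) := by
  have := charL (F := F)
  have h := A.hC
  rw [← A.hT]
  simp only [Dat.G, Dat.tt, Dat.cc, det_fin_three, of_apply, cons_val_zero, cons_val_one,
    cons_val, map_one, map_pow]
  grind

omit [CharP F 2] in
theorem Dat.vP : vv (emb F (A.P k)) = exp ((2 : ℤ) ^ k) := by
  have : vv (uu F 1 - HahnSeries.C A.w) = exp 1 := by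
    rw [Valuation.map_sub_eq_of_lt_left, vv_uu]
    rw [vv_uu]
    exact (vv_C_le _).trans_lt (by rw [← exp_zero, exp_lt_exp]; norm_num)
  rw [Dat.P, map_pow, map_pow, map_sub, emb_eq, ev_X, ev_C, this, ← WithZero.exp_nsmul]
  simp

omit [CharP F 2] in
theorem Dat.P_ne : emb F (A.P k) ≠ 0 := fun h => by
  have := A.vP k
  rw [h, map_zero] at this
  exact exp_ne_zero this.symm

theorem Dat.v_det : vv (A.G k).det = exp ((2 : ℤ) ^ k) := by
  rw [A.det_G, map_mul, vs, mul_one, A.vP]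

theorem Dat.det_ne : (A.G k).det ≠ 0 := fun h => by
  have := A.v_det k
  rw [h, map_zero] at this
  exact exp_ne_zero this.symm

theorem Dat.min_G (x : Fin 3 → F[X]) (hx : x ≠ 0) :
    vv (A.G k).det ≤ (∏ i, vv ((A.G k *ᵥ fun j => emb F (x j)) i)) * exp 2 := by
  have inj : Function.Injective (emb F) := ev_inj (vv_uu 1) one_ne_zero
  set y1 := A.r0 k * x 0 + A.P k * x 1 + A.r2 k * x 2 with hy1
  obtain ⟨a, ha⟩ := homog (x 0)
  obtain ⟨b, hb⟩ := homog y1
  obtain ⟨c, hc⟩ := homog (x 2)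
  obtain ⟨Y0, d0, e0⟩ := ha (a + b + c) (by omega)
  obtain ⟨Y1, d1, e1⟩ := hb (a + b + c) (by omega)
  obtain ⟨Y2, d2, e2⟩ := hc (a + b + c) (by omega)
  generalize a + b + c = D at *
  have e : ∀ i, ev (A.tt i) (ll Y0 Y1 Y2) = uu F (-1) ^ D * (A.G k *ᵥ fun j => emb F (x j)) i := by
    intro i
    rw [A.G_mulVec]
    simp only [ll, map_add, map_mul, map_pow, ev_X, ev_expand, A.tt3, e0, e1, e2, hy1]
    ring
  have hG : ll Y0 Y1 Y2 ≠ 0 := by
    intro h
    have h1 : (A.G k *ᵥ fun j => emb F (x j)) = 0 := funext fun i => by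
      have := e i
      rw [h, map_zero] at this
      exact (mul_eq_zero.mp this.symm).resolve_left (pow_ne_zero _ (uu_ne _))
    have h2 := eq_zero_of_mulVec_eq_zero (A.det_ne k) h1
    exact hx (funext fun j => inj (by rw [Pi.zero_apply, map_zero]; exact congrFun h2 j))
  have hz := (family A.hw A.hs A.hi k).2.1 Y0 Y1 Y2 hG (transfer A.hw A.t0 A.t2 k _ D
    ⟨A.ε k * ((ps A.t0 A.t2 k).1 * x 0 + (ps A.t0 A.t2 k).2.2 * x 2) + (ps A.t0 A.t2 k).2.1 * x 1,
      by
        rw [hy1, Dat.r0, Dat.r2, Dat.P]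
        linear_combination (norm := grind)
          ((ps A.t0 A.t2 k).1 * x 0 + (ps A.t0 A.t2 k).2.2 * x 2) * A.hδ k⟩ e0 e1 e2)
  have hd : (ll Y0 Y1 Y2).natDegree ≤ 3 * D + 2 := by
    have b0 : (expand F 3 Y0).natDegree ≤ 3 * D := by rw [natDegree_expand]; omega
    have b1 : (expand F 3 Y1).natDegree ≤ 3 * D := by rw [natDegree_expand]; omega
    have b2 : (expand F 3 Y2).natDegree ≤ 3 * D := by rw [natDegree_expand]; omega
    have c1 := natDegree_mul_le (p := X) (q := expand F 3 Y1)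
    have c2 := natDegree_mul_le (p := X ^ 2) (q := expand F 3 Y2)
    rw [natDegree_X] at c1
    rw [natDegree_X_pow] at c2
    exact (natDegree_add_le _ _).trans (max_le ((natDegree_add_le _ _).trans
      (max_le (by omega) (by omega))) (by omega))
  have hv : ∀ i, vv ((A.G k *ᵥ fun j => emb F (x j)) i) =
      exp ((D : ℤ) - (ll Y0 Y1 Y2).rootMultiplicity (A.cc i)) := by
    intro i
    have := val_ev (A.vtt i) hG
    rw [e, map_mul, map_pow, vv_uu, ← WithZero.exp_nsmul] at this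
    rw [sub_eq_add_neg, exp_add, ← this, ← mul_assoc, ← exp_add]
    simp
  rw [A.v_det, Fin.prod_univ_three, hv, hv, hv, ← exp_add, ← exp_add, ← exp_add, exp_le_exp]
  rw [zz] at hz
  simp only [Dat.cc, cons_val_zero, cons_val_one, cons_val]
  omega

/-- the lattice as an invertible matrix -/
noncomputable def Dat.g : GL (Fin 3) (LaurentSeries F) :=
  GeneralLinearGroup.mkOfDetNeZero _ (A.det_ne k)

theorem Dat.orb_sub : orb (A.g k : _ ⧸ Gam F 3) ⊆ QuotientGroup.mk '' CC F 3 6 := by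
  rintro _ ⟨a, ha, rfl⟩
  refine into_CC3 (a * A.g k) fun x hx => ?_
  have e : (a * A.g k).val = diagonal a.val.diag * A.G k := by
    rw [ha.diagonal_diag]; rfl
  rw [e, det_mul, det_diagonal, map_mul, map_prod, ← mulVec_mulVec]
  simp only [mulVec_diagonal, map_mul]
  rw [Finset.prod_mul_distrib, mul_assoc]
  exact mul_le_mul' le_rfl (A.min_G k x hx)

/-- the entries of the regular diagonal matrix -/
noncomputable def Dat.la (i : Fin 3) : LaurentSeries F := emb F (A.P k) * uu F 1 * A.tt i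

theorem Dat.la_ne (i : Fin 3) : A.la k i ≠ 0 :=
  mul_ne_zero (mul_ne_zero (A.P_ne k) (uu_ne _))
    (mul_ne_zero (by simpa using A.cc_ne i) A.T_ne)

theorem Dat.la_inj (i j : Fin 3) (hij : i ≠ j) : A.la k i ≠ A.la k j := by
  intro h
  have h1 := HahnSeries.C_injective (mul_right_cancel₀ A.T_ne
    (mul_left_cancel₀ (mul_ne_zero (A.P_ne k) (uu_ne _)) h))
  have a1 := w1 A.hw
  have a3 := w21 A.hw
  have a4 := w2w A.hw
  fin_cases i <;> fin_cases j <;> simp_all [Dat.cc, eq_comm]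

/-- the regular diagonal matrix -/
noncomputable def Dat.lam : GL (Fin 3) (LaurentSeries F) :=
  GeneralLinearGroup.mkOfDetNeZero (diagonal (A.la k)) (by
    rw [det_diagonal]; exact Finset.prod_ne_zero_iff.mpr fun i _ => A.la_ne k i)

theorem Dat.lam_val : (A.lam k).val = diagonal (A.la k) := rfl

theorem Dat.pres : Pres (A.lam k) (A.g k) := by
  have key : ∀ y0 y1 y2 : F[X], ∃ x : Fin 3 → F[X], ∀ i, (A.G k *ᵥ fun j => emb F (x j)) i =
      A.la k i * (emb F y0 + A.tt i * emb F y1 + A.tt i ^ 2 * emb F y2) := by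
    intro y0 y1 y2
    refine ⟨![A.P k * ((X + 1) * y2), X * y0 - A.r0 k * ((X + 1) * y2) - A.r2 k * (X * y1),
      A.P k * (X * y1)], fun i => ?_⟩
    rw [A.G_mulVec, Dat.la]
    simp only [cons_val_zero, cons_val_one, cons_val, map_mul, map_sub, map_add, map_one, emb_eq,
      ev_X]
    linear_combination (-(ev (uu F 1) (A.P k) * uu F 1 * ev (uu F 1) y2)) * A.tt3 i -
      (ev (uu F 1) (A.P k) * ev (uu F 1) y2) * xu (F := F)
  have col : ∀ j, ∃ x : Fin 3 → F[X], ∀ i, A.la k i * A.G k i j =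
      (A.G k *ᵥ fun l => emb F (x l)) i := by
    intro j
    fin_cases j
    · obtain ⟨x, hx⟩ := key 1 (A.r0 k) 0
      exact ⟨x, fun i => by rw [hx]; simp [Dat.G]⟩
    · obtain ⟨x, hx⟩ := key 0 (A.P k) 0
      exact ⟨x, fun i => by rw [hx]; simp [Dat.G]⟩
    · obtain ⟨x, hx⟩ := key 0 (A.r2 k) 1
      exact ⟨x, fun i => by rw [hx]; simp [Dat.G]⟩
  choose x hx using col
  refine ⟨Matrix.of fun l j => x j l, ?_⟩
  ext1 i j
  rw [A.lam_val, diagonal_mul]
  exact hx j i

theorem Dat.tri_zero {a b c : LaurentSeries F} (h : ∀ i, a + A.tt i * b + A.tt i ^ 2 * c = 0) :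
    b = 0 ∧ c = 0 := by
  have := charL (F := F)
  have h0 := h 0
  have h1 := h 1
  have h2 := h 2
  have hC := A.hC
  simp only [Dat.tt, Dat.cc, cons_val_zero, cons_val_one, cons_val, map_one, map_pow] at h0 h1 h2
  have e1 : A.T * b = 0 := by grind
  have e2 : A.T ^ 2 * c = 0 := by grind
  exact ⟨(mul_eq_zero.mp e1).resolve_left A.T_ne,
    (mul_eq_zero.mp e2).resolve_left (pow_ne_zero _ A.T_ne)⟩

theorem Dat.not_pres {j k : ℕ} (hjk : j < k) : ¬ Pres (A.lam j) (A.g k) := by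
  rintro ⟨N, hN⟩
  have inj : Function.Injective (emb F) := ev_inj (vv_uu 1) one_ne_zero
  have h1 : ∀ i, A.la j i * (1 + A.tt i * emb F (A.r0 k)) =
      (A.G k *ᵥ fun l => emb F (N l 0)) i := by
    intro i
    have := congrFun (congrFun hN i) 0
    rw [A.lam_val, diagonal_mul] at this
    exact this
  have h2 : ∀ i, emb F (N 0 0) + A.tt i * emb F (A.r0 k * N 0 0 + A.P k * N 1 0 + A.r2 k * N 2 0 -
      A.P j * X) + A.tt i ^ 2 * emb F (N 2 0 - A.P j * X * A.r0 k) = 0 := by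
    intro i
    have := h1 i
    rw [A.G_mulVec, Dat.la] at this
    simp only [map_add, map_mul, map_sub, emb_eq, ev_X] at this ⊢
    linear_combination -this
  obtain ⟨b, c⟩ := A.tri_zero h2
  have a := h2 0
  rw [b, c, mul_zero, mul_zero, add_zero, add_zero] at a
  rw [map_eq_zero_iff _ inj] at a b c
  obtain ⟨m, hm⟩ : ∃ m, 2 ^ k = 2 ^ j + (m + 1) :=
    ⟨2 ^ k - 2 ^ j - 1, by have := Nat.pow_lt_pow_right one_lt_two hjk; omega⟩
  have hP : A.P k = A.P j * (X - C A.w) ^ (m + 1) := by rw [Dat.P, Dat.P, hm, pow_add]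
  have h3 : A.P j * ((X - C A.w) ^ (m + 1) * N 1 0 + A.r2 k * X * A.r0 k - X) = 0 := by
    rw [hP] at b
    linear_combination b - A.r0 k * a - A.r2 k * c
  have h4 := congrArg (eval A.w) ((mul_eq_zero.mp h3).resolve_left
    (pow_ne_zero _ (X_sub_C_ne_zero _)))
  have h5 := congrArg (eval A.w) (A.hδ k)
  simp only [Dat.r0, Dat.r2, hm, eval_add, eval_sub, eval_mul, eval_pow, eval_X, eval_C, sub_self,
    pow_add, pow_one, mul_zero, zero_mul, zero_add, add_zero, eval_zero, eval_one] at h4 h5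
  refine (ps_eval A.hw A.hne k).2 (mul_left_cancel₀ (w0 A.hw) ?_)
  generalize eval A.w (ps A.t0 A.t2 k).1 = x at *
  generalize eval A.w (ps A.t0 A.t2 k).2.1 = y at *
  generalize eval A.w (ps A.t0 A.t2 k).2.2 = z at *
  generalize eval A.w (A.δ k) = d at *
  linear_combination (-y ^ 2) * h4 + A.w * x * z * (d * y + 1) * h5

theorem main [Finite F] {w : F} (hw : w ^ 2 + w + 1 = 0) (hc : 16 < Nat.card F) :
    ∃ Ω : Set (GL (Fin 3) (LaurentSeries F) ⧸ Gam F 3), IsCompact Ω ∧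
      {O | (∃ x, O = orb x) ∧ IsCompact O ∧ O ⊆ Ω}.Infinite := by
  obtain ⟨A⟩ := exists_dat hw hc
  refine ⟨QuotientGroup.mk '' CC F 3 6, (compact_CC 6).image QuotientGroup.continuous_mk, ?_⟩
  have hd : ∀ k, (A.lam k).val.IsDiag := fun k => isDiag_diagonal _
  have self : ∀ k, (A.g k : _ ⧸ Gam F 3) ∈ orb (A.g k : _ ⧸ Gam F 3) := fun k =>
    ⟨1, isDiag_one, (one_smul _ _).symm⟩
  refine Set.infinite_of_injective_forall_mem (f := fun k : ℕ => orb (A.g k : _ ⧸ Gam F 3))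
    (fun j k e => ?_) fun k => ⟨⟨_, rfl⟩, ?_, A.orb_sub k⟩
  · simp only at e
    rcases lt_trichotomy j k with h | h | h
    · exact absurd ((A.pres j).of_orb (hd j) (e ▸ self k)) (A.not_pres h)
    · exact h
    · exact absurd ((A.pres k).of_orb (hd k) (e ▸ self j)) (A.not_pres h)
  · refine orb_compact (hd k) (fun i j hij => ?_) (A.pres k) (A.orb_sub k)
    rw [A.lam_val, diagonal_apply_eq, diagonal_apply_eq]
    exact A.la_inj k i j hij

omit [CharP F 2] in
theorem main' [Finite F] {m : ℕ} (hm : 3 ≤ m) (hF : Nat.card F = 4 ^ m) :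
    ∃ Ω : Set (GL (Fin 3) (LaurentSeries F) ⧸ Gam F 3), IsCompact Ω ∧
      {O | (∃ x, O = orb x) ∧ IsCompact O ∧ O ⊆ Ω}.Infinite := by
  have := Fintype.ofFinite F
  obtain ⟨n, hp, hn⟩ := FiniteField.card F (ringChar F)
  have h2 : ringChar F = 2 := by
    have h1 : ringChar F ∣ 2 ^ (2 * m) := by
      rw [pow_mul, show 2 ^ 2 = 4 from rfl, ← hF, Nat.card_eq_fintype_card, hn]
      exact dvd_pow_self _ n.ne_zero
    exact (Nat.prime_dvd_prime_iff_eq hp Nat.prime_two).mp (hp.dvd_of_dvd_pow h1)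
  have : CharP F 2 := ringChar.of_eq h2
  have : Fact (Nat.Prime 3) := ⟨Nat.prime_three⟩
  obtain ⟨w, hw⟩ := exists_prime_orderOf_dvd_card' (G := Fˣ) 3 (by
    rw [Nat.card_units, hF]
    simpa using Nat.sub_dvd_pow_sub_pow 4 1 m)
  have h3 : (w : F) ^ 3 = 1 := by
    rw [← Units.val_pow_eq_pow_val, ← hw, pow_orderOf_eq_one, Units.val_one]
  have h4 : (w : F) - 1 ≠ 0 := fun h => by
    rw [Units.ext (sub_eq_zero.mp h : (w : F) = (1 : Fˣ)), orderOf_one] at hw
    omega
  refine main (w := w) (mul_left_cancel₀ h4 (by linear_combination h3)) ?_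
  rw [hF]
  exact lt_of_lt_of_le (by norm_num) (Nat.pow_le_pow_right four_pos hm)

end Pool.Agent.MP_c07293_an.H17
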