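import Pool.Agent.MP_c07293_an.H17.Zero

/-! The doubling step. -/

namespace Pool.Agent.MP_c07293_an.H17

open Polynomial

variable {F : Type} [Field F]

/-- the polynomial with three given components over the ring of cubes -/
noncomputable def ll (y0 y1 y2 : F[X]) : F[X] :=
  expand F 3 y0 + X * expand F 3 y1 + X ^ 2 * expand F 3 y2

/-- the bound for the lattice -/
def QM (w : F) (f0 f1 f2 P : F[X]) (n : ℤ) : Prop :=
  ∀ y0 y1 y2 : F[X], ll y0 y1 y2 ≠ 0 → P ∣ f0 * y0 + f1 * y1 + f2 * y2 → n ≤ zz w (ll y0 y1 y2)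

/-- the bound for the dual lattice -/
def QD (w : F) (f0 f1 f2 P : F[X]) (n : ℤ) : Prop :=
  ∀ y0 y1 y2 : F[X], ll y0 y1 y2 ≠ 0 →
    (∃ c, P ∣ y0 + c * f2 ∧ P ∣ y1 + c * f1 ∧ P ∣ y2 + c * f0) → n ≤ zz w (ll y0 y1 y2)

theorem ll_smul (g y0 y1 y2 : F[X]) :
    ll (g * y0) (g * y1) (g * y2) = expand F 3 g * ll y0 y1 y2 := by
  simp only [ll, map_mul]; ring

variable [CharP F 2] {w : F}

theorem tw_ll {c : F} (hc : c ^ 3 = 1) (y0 y1 y2 : F[X]) : tw c (ll y0 y1 y2) =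
    expand F 3 y0 + C c * X * expand F 3 y1 + (C c * X) ^ 2 * expand F 3 y2 := by
  simp only [ll, map_add, map_mul, map_pow, tw_expand hc, tw_X]

theorem Cw (hw : w ^ 2 + w + 1 = 0) : (C w : F[X]) ^ 2 + C w + 1 = 0 := by
  rw [← C_pow, ← C_1, ← C_add, ← C_add, hw, C_0]

theorem ll_eq_zero (hw : w ^ 2 + w + 1 = 0) {y0 y1 y2 : F[X]} (h : ll y0 y1 y2 = 0) :
    y0 = 0 ∧ y1 = 0 ∧ y2 = 0 := by
  have h1 := tw_ll (w3 hw) y0 y1 y2
  have h2 := tw_ll (c := w ^ 2) (by grind) y0 y1 y2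
  rw [h, map_zero] at h1 h2
  rw [C_pow] at h2
  rw [ll] at h
  have hC := Cw hw
  have e0 : expand F 3 y0 = 0 := by grind
  have e1 : X * expand F 3 y1 = 0 := by grind
  have e2 : X ^ 2 * expand F 3 y2 = 0 := by grind
  simp only [mul_eq_zero, X_ne_zero, false_or, pow_ne_zero 2 X_ne_zero] at e1 e2
  exact ⟨(expand_eq_zero three_pos).mp e0, (expand_eq_zero three_pos).mp e1,
    (expand_eq_zero three_pos).mp e2⟩

theorem wd_ll (hw : w ^ 2 + w + 1 = 0) (a0 a1 a2 b0 b1 b2 : F[X]) :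
    wd w (ll a0 a1 a2) (ll b0 b1 b2) =
      X * ll (a0 * b1 + a1 * b0) (a0 * b2 + a2 * b0) (a1 * b2 + a2 * b1) := by
  have h2 : (w ^ 2) ^ 3 = 1 := by grind
  have hC := Cw hw
  rw [wd, tw_ll (w3 hw), tw_ll (w3 hw), tw_ll h2, tw_ll h2, ll, C_pow]
  simp only [map_add, map_mul]
  grind

theorem sq_split (hs : ∀ a : F, IsSquare a) (A : F[X]) : ∃ a b : F[X], A = a ^ 2 + X * b ^ 2 := by
  induction A using Polynomial.induction_on with
  | C a =>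
    obtain ⟨b, rfl⟩ := hs a
    exact ⟨C b, 0, by rw [C_mul]; ring⟩
  | add p q hp hq =>
    obtain ⟨a, b, rfl⟩ := hp
    obtain ⟨c, d, rfl⟩ := hq
    exact ⟨a + c, b + d, by grind⟩
  | monomial n a h =>
    obtain ⟨c, d, h⟩ := h
    exact ⟨X * d, c, by rw [pow_succ, ← mul_assoc, h]; ring⟩

theorem sq_zero {a b : F[X]} (h : a ^ 2 + X * b ^ 2 = 0) : a = 0 ∧ b = 0 := by
  by_cases hb : b = 0
  · rw [hb] at h
    exact ⟨by simpa using h, hb⟩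
  · have e : a ^ 2 = X * b ^ 2 := by grind
    have := congrArg natDegree e
    rw [natDegree_mul X_ne_zero (pow_ne_zero _ hb), natDegree_pow, natDegree_pow, natDegree_X]
      at this
    omega

theorem sq_dvd (hs : ∀ a : F, IsSquare a) {P a b : F[X]} (h : P ^ 2 ∣ a ^ 2 + X * b ^ 2) :
    P ∣ a ∧ P ∣ b := by
  obtain ⟨Q, hQ⟩ := h
  obtain ⟨c, d, rfl⟩ := sq_split hs Q
  obtain ⟨h1, h2⟩ := sq_zero (a := a + P * c) (b := b + P * d) (by grind)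
  exact ⟨⟨c, by grind⟩, ⟨d, by grind⟩⟩

omit [CharP F 2] in
theorem prop_pair {s t : F[X]} (h : s ≠ 0 ∨ t ≠ 0) :
    ∃ g0 g1 d x y : F[X], d ≠ 0 ∧ s = d * g0 ∧ t = d * g1 ∧ x * g0 + y * g1 = 1 := by
  rcases h with hs | ht
  · obtain ⟨b, q, f, hc, rfl, rfl⟩ := UniqueFactorizationMonoid.exists_reduced_factors s hs t
    obtain ⟨x, y, e⟩ := hc.isCoprime
    exact ⟨b, q, f, x, y, left_ne_zero_of_mul hs, rfl, rfl, e⟩
  · obtain ⟨q, b, f, hc, rfl, rfl⟩ := UniqueFactorizationMonoid.exists_reduced_factors t ht s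
    obtain ⟨x, y, e⟩ := hc.isCoprime.symm
    exact ⟨b, q, f, x, y, left_ne_zero_of_mul ht, rfl, rfl, e⟩

theorem prop_one {d g0 g1 x y a b : F[X]} (hd : d ≠ 0) (e : x * g0 + y * g1 = 1)
    (h : d * g0 * b + a * (d * g1) = 0) : a = g0 * (x * a + y * b) ∧ b = g1 * (x * a + y * b) := by
  have h1 : d * (g0 * b + a * g1) = 0 := by rw [← h]; ring
  have h2 := (mul_eq_zero.mp h1).resolve_left hd
  constructor <;> grind

theorem prop_vec {a0 a1 a2 b0 b1 b2 : F[X]} (h0 : a0 * b1 + a1 * b0 = 0)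
    (h1 : a0 * b2 + a2 * b0 = 0) (h2 : a1 * b2 + a2 * b1 = 0) : ∃ g0 g1 x y : F[X],
      (a0 = g0 * (x * a0 + y * b0) ∧ b0 = g1 * (x * a0 + y * b0)) ∧
      (a1 = g0 * (x * a1 + y * b1) ∧ b1 = g1 * (x * a1 + y * b1)) ∧
      (a2 = g0 * (x * a2 + y * b2) ∧ b2 = g1 * (x * a2 + y * b2)) := by
  by_cases k0 : a0 ≠ 0 ∨ b0 ≠ 0
  · obtain ⟨g0, g1, d, x, y, hd, rfl, rfl, e⟩ := prop_pair k0
    exact ⟨g0, g1, x, y, prop_one hd e (by grind), prop_one hd e (by grind),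
      prop_one hd e (by grind)⟩
  by_cases k1 : a1 ≠ 0 ∨ b1 ≠ 0
  · obtain ⟨g0, g1, d, x, y, hd, rfl, rfl, e⟩ := prop_pair k1
    exact ⟨g0, g1, x, y, prop_one hd e (by grind), prop_one hd e (by grind),
      prop_one hd e (by grind)⟩
  by_cases k2 : a2 ≠ 0 ∨ b2 ≠ 0
  · obtain ⟨g0, g1, d, x, y, hd, rfl, rfl, e⟩ := prop_pair k2
    exact ⟨g0, g1, x, y, prop_one hd e (by grind), prop_one hd e (by grind),
      prop_one hd e (by grind)⟩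
  push Not at k0 k1 k2
  exact ⟨0, 0, 0, 0, by simp [k0], by simp [k1], by simp [k2]⟩

theorem core (hw : w ^ 2 + w + 1 = 0) (M : F[X] → F[X] → F[X] → Prop) {n : ℤ}
    (hQ : ∀ y0 y1 y2, ll y0 y1 y2 ≠ 0 → M y0 y1 y2 → n ≤ zz w (ll y0 y1 y2))
    {a0 a1 a2 b0 b1 b2 : F[X]}
    (hM : ∀ x y, M (x * a0 + y * b0) (x * a1 + y * b1) (x * a2 + y * b2))
    (hW : ll (a0 * b1 + a1 * b0) (a0 * b2 + a2 * b0) (a1 * b2 + a2 * b1) ≠ 0 →
      2 * n ≤ zz w (ll (a0 * b1 + a1 * b0) (a0 * b2 + a2 * b0) (a1 * b2 + a2 * b1)))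
    {y0 y1 y2 : F[X]} (hG : ll y0 y1 y2 ≠ 0) (e0 : X ^ 2 * y2 = a0 ^ 2 + X * b0 ^ 2)
    (e1 : X * y1 = a1 ^ 2 + X * b1 ^ 2) (e2 : y0 = a2 ^ 2 + X * b2 ^ 2) :
    2 * n ≤ zz w (ll y0 y1 y2) := by
  have e : X ^ 4 * ll y0 y1 y2 = ll a0 a1 a2 ^ 2 + X ^ 3 * ll b0 b1 b2 ^ 2 := by
    have f0 := congrArg (expand F 3) e0
    have f1 := congrArg (expand F 3) e1
    have f2 := congrArg (expand F 3) e2
    simp only [map_add, map_mul, map_pow, expand_X] at f0 f1 f2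
    simp only [ll]
    linear_combination (norm := grind) f0 + X ^ 2 * f1 + X ^ 4 * f2
  generalize ll y0 y1 y2 = G at hG e
  by_cases h : ll (a0 * b1 + a1 * b0) (a0 * b2 + a2 * b0) (a1 * b2 + a2 * b1) = 0
  · obtain ⟨h0, h1, h2⟩ := ll_eq_zero hw h
    obtain ⟨g0, g1, x, y, ⟨p0, q0⟩, ⟨p1, q1⟩, p2, q2⟩ := prop_vec h0 h1 h2
    have hm := hM x y
    generalize x * a0 + y * b0 = c0 at *
    generalize x * a1 + y * b1 = c1 at *
    generalize x * a2 + y * b2 = c2 at *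
    rw [p0, p1, p2, q0, q1, q2, ll_smul, ll_smul] at e
    have e' : X ^ 4 * G = (expand F 3 g0 ^ 2 + X ^ 3 * expand F 3 g1 ^ 2) * ll c0 c1 c2 ^ 2 := by
      rw [e]; ring
    have n0 : X ^ 4 * G ≠ 0 := mul_ne_zero (pow_ne_zero _ X_ne_zero) hG
    rw [e'] at n0
    have n1 := left_ne_zero_of_mul n0
    have n2 := right_ne_zero_of_mul n0
    have n3 : ll c0 c1 c2 ≠ 0 := fun h => n2 (by rw [h]; simp)
    have := congrArg (zz w) e'
    rw [zz_mul w (pow_ne_zero _ X_ne_zero) hG, zz_pow w X_ne_zero, zz_X hw, zz_mul w n1 n2,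
      zz_pow w n3] at this
    have k1 := zz_nonneg hw n1
    have k2 := hQ c0 c1 c2 n3 hm
    push_cast at this
    omega
  · have h1 := wd_ll hw a0 a1 a2 b0 b1 b2
    have h2 := zz_wd hw hG e (by rw [h1]; exact mul_ne_zero X_ne_zero h)
    rw [h1, zz_mul w X_ne_zero h, zz_X hw, zero_add] at h2
    exact (hW h).trans h2

theorem step (hw : w ^ 2 + w + 1 = 0) (hs : ∀ a : F, IsSquare a) {f0 f1 f2 P : F[X]} {n : ℤ}
    (hc : IsCoprime f1 P) (hz : 3 * n ≤ zz w (expand F 3 P))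
    (h1 : QM w f0 f1 f2 P n) (h2 : QD w f0 f1 f2 P (2 * n)) :
    QM w (f2 ^ 2) (X * f1 ^ 2) (X ^ 2 * f0 ^ 2) (P ^ 2) (2 * n) ∧
      QD w (f2 ^ 2) (X * f1 ^ 2) (X ^ 2 * f0 ^ 2) (P ^ 2) (2 * (2 * n)) := by
  obtain ⟨δ, ε, hδ⟩ := hc
  constructor
  · intro y0 y1 y2 hG hy
    obtain ⟨a0, b0, e0⟩ := sq_split hs (X ^ 2 * y2)
    obtain ⟨a1, b1, e1⟩ := sq_split hs (X * y1)
    obtain ⟨a2, b2, e2⟩ := sq_split hs y0
    have e : f2 ^ 2 * y0 + X * f1 ^ 2 * y1 + X ^ 2 * f0 ^ 2 * y2 =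
        (f0 * a0 + f1 * a1 + f2 * a2) ^ 2 + X * (f0 * b0 + f1 * b1 + f2 * b2) ^ 2 := by grind
    rw [e] at hy
    obtain ⟨⟨α, ha⟩, β, hb⟩ := sq_dvd hs hy
    refine core hw (fun y0 y1 y2 => P ∣ f0 * y0 + f1 * y1 + f2 * y2) h1
      (fun x y => ⟨x * α + y * β, by linear_combination x * ha + y * hb⟩)
      (fun h => h2 _ _ _ h ⟨δ * (a0 * b2 + a2 * b0), ?_, ?_, ?_⟩)
      hG e0 e1 e2
    · exact ⟨ε * (a0 * b1 + a1 * b0) + δ * (a0 * β + b0 * α), by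
        linear_combination (norm := grind) (a0 * b1 + a1 * b0) * hδ + δ * a0 * hb + δ * b0 * ha⟩
    · exact ⟨ε * (a0 * b2 + a2 * b0), by
        linear_combination (norm := grind) (a0 * b2 + a2 * b0) * hδ⟩
    · exact ⟨ε * (a1 * b2 + a2 * b1) + δ * (a2 * β + b2 * α), by
        linear_combination (norm := grind) (a1 * b2 + a2 * b1) * hδ + δ * a2 * hb + δ * b2 * ha⟩
  · rintro y0 y1 y2 hG ⟨c, ⟨z0, k0⟩, ⟨z1, k1⟩, z2, k2⟩
    obtain ⟨a0, b0, e0⟩ := sq_split hs (X ^ 2 * y2)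
    obtain ⟨a1, b1, e1⟩ := sq_split hs (X * y1)
    obtain ⟨a2, b2, e2⟩ := sq_split hs y0
    obtain ⟨c0, c1, ec⟩ := sq_split hs (X ^ 2 * c)
    obtain ⟨⟨α0, p0⟩, β0, q0⟩ := sq_dvd hs (P := P) (a := a0 + c0 * f2) (b := b0 + c1 * f2)
      ⟨X ^ 2 * z2, by linear_combination (norm := grind) X ^ 2 * k2 + e0 + f2 ^ 2 * ec⟩
    obtain ⟨⟨α1, p1⟩, β1, q1⟩ := sq_dvd hs (P := P) (a := a1 + c0 * f1) (b := b1 + c1 * f1)
      ⟨X * z1, by linear_combination (norm := grind) X * k1 + e1 + f1 ^ 2 * ec⟩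
    obtain ⟨⟨α2, p2⟩, β2, q2⟩ := sq_dvd hs (P := P) (a := a2 + c0 * f0) (b := b2 + c1 * f0)
      ⟨z0, by linear_combination (norm := grind) k0 + e2 + f0 ^ 2 * ec⟩
    refine core hw (fun y0 y1 y2 => ∃ c, P ∣ y0 + c * f2 ∧ P ∣ y1 + c * f1 ∧ P ∣ y2 + c * f0) h2
      (fun x y => ⟨x * c0 + y * c1, ⟨x * α0 + y * β0, by linear_combination x * p0 + y * q0⟩,
        ⟨x * α1 + y * β1, by linear_combination x * p1 + y * q1⟩,
        ⟨x * α2 + y * β2, by linear_combination x * p2 + y * q2⟩⟩) (fun h => ?_) hG e0 e1 e2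
    have sub : ∀ {a c d : F[X]}, a + c = d → a = d + c := fun h => by
      linear_combination (norm := grind) h
    have r0 : a0 * b1 + a1 * b0 = P * (c0 * (f2 * β1 + f1 * β0) + c1 * (f1 * α0 + f2 * α1) +
      P * (α0 * β1 + α1 * β0)) := by rw [sub p0, sub p1, sub q0, sub q1]; grind
    have r1 : a0 * b2 + a2 * b0 = P * (c0 * (f2 * β2 + f0 * β0) + c1 * (f0 * α0 + f2 * α2) +
      P * (α0 * β2 + α2 * β0)) := by rw [sub p0, sub p2, sub q0, sub q2]; grind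
    have r2 : a1 * b2 + a2 * b1 = P * (c0 * (f1 * β2 + f0 * β1) + c1 * (f0 * α1 + f1 * α2) +
      P * (α1 * β2 + α2 * β1)) := by rw [sub p1, sub p2, sub q1, sub q2]; grind
    rw [r0, r1, r2, ll_smul] at h ⊢
    have n2 := right_ne_zero_of_mul h
    rw [zz_mul w (left_ne_zero_of_mul h) n2]
    have := h1 _ _ _ n2 ⟨f0 * (α0 * β1 + α1 * β0) + f1 * (α0 * β2 + α2 * β0) +
      f2 * (α1 * β2 + α2 * β1), by grind⟩
    omega

end Pool.Agent.MP_c07293_an.H17
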