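import Mathlib

/-! Zeros of a polynomial outside the field with four elements. -/

namespace Pool.Agent.MP_c07293_an.H17

open Polynomial

variable {F : Type} [Field F]

/-- the number of zeros outside the four points `0, 1, w, w ^ 2` -/
noncomputable def zz (w : F) (G : F[X]) : ℤ :=
  (G.natDegree : ℤ) - (G.rootMultiplicity 0 + G.rootMultiplicity 1 + G.rootMultiplicity w +
    G.rootMultiplicity (w ^ 2))

theorem zz_mul (w : F) {G H : F[X]} (hG : G ≠ 0) (hH : H ≠ 0) :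
    zz w (G * H) = zz w G + zz w H := by
  have := mul_ne_zero hG hH
  simp only [zz, natDegree_mul hG hH, rootMultiplicity_mul this]
  push_cast
  ring

theorem zz_one (w : F) : zz w 1 = 0 := by
  have : ∀ r : F, rootMultiplicity r (1 : F[X]) = 0 := fun r =>
    rootMultiplicity_eq_zero (by simp)
  simp [zz, this]

theorem zz_pow (w : F) {G : F[X]} (hG : G ≠ 0) (m : ℕ) : zz w (G ^ m) = m * zz w G := by
  induction m with
  | zero => simp [zz_one]
  | succ m ih => rw [pow_succ, zz_mul w (pow_ne_zero _ hG) hG, ih]; push_cast; ring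

variable [CharP F 2] {w : F}

theorem w3 (hw : w ^ 2 + w + 1 = 0) : w ^ 3 = 1 := by grind

theorem w0 (hw : w ^ 2 + w + 1 = 0) : w ≠ 0 := by grind

theorem w1 (hw : w ^ 2 + w + 1 = 0) : w ≠ 1 := by grind

theorem w20 (hw : w ^ 2 + w + 1 = 0) : w ^ 2 ≠ 0 := by grind

theorem w21 (hw : w ^ 2 + w + 1 = 0) : w ^ 2 ≠ 1 := by grind

theorem w2w (hw : w ^ 2 + w + 1 = 0) : w ^ 2 ≠ w := by grind

theorem zz_lin (hw : w ^ 2 + w + 1 = 0) {r : F} (hr : r = 0 ∨ r = 1 ∨ r = w ∨ r = w ^ 2) :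
    zz w (X - C r) = 0 := by
  classical
  have a0 := w0 hw
  have a1 := w1 hw
  have a2 := w20 hw
  have a3 := w21 hw
  have a4 := w2w hw
  simp only [zz, natDegree_X_sub_C, rootMultiplicity_X_sub_C]
  rcases hr with rfl | rfl | rfl | rfl <;> simp [a0, a1, a2, a3, a4, a0.symm, a1.symm, a2.symm,
    a3.symm, a4.symm]

theorem zz_X (hw : w ^ 2 + w + 1 = 0) : zz w (X : F[X]) = 0 := by
  simpa using zz_lin hw (Or.inl rfl)

theorem strip (hw : w ^ 2 + w + 1 = 0) (P : F[X] → Prop) (h1 : P 1)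
    (hm : ∀ r η, r ^ 4 = r → P η → P ((X - C r) * η)) (G : F[X]) (hG : G ≠ 0) :
    ∃ η H, P η ∧ G = η * H ∧ (H.natDegree : ℤ) = zz w G := by
  induction h : G.natDegree using Nat.strong_induction_on generalizing G with
  | _ n ih =>
    by_cases hr : ∃ r, (r = 0 ∨ r = 1 ∨ r = w ∨ r = w ^ 2) ∧ IsRoot G r
    · obtain ⟨r, hr, hG'⟩ := hr
      obtain ⟨G', rfl⟩ := dvd_iff_isRoot.mpr hG'
      have h0 : G' ≠ 0 := right_ne_zero_of_mul hG
      obtain ⟨η, H, a, b, c⟩ := ih G'.natDegree (by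
        rw [← h, natDegree_mul (X_sub_C_ne_zero r) h0, natDegree_X_sub_C]; omega) G' h0 rfl
      refine ⟨(X - C r) * η, H, hm r η ?_ a, by rw [mul_assoc, ← b], ?_⟩
      · rcases hr with rfl | rfl | rfl | rfl <;> grind
      · rw [zz_mul w (X_sub_C_ne_zero r) h0, zz_lin hw hr, c, zero_add]
    · push Not at hr
      refine ⟨1, G, h1, (one_mul _).symm, ?_⟩
      rw [zz, rootMultiplicity_eq_zero (hr 0 (by simp)), rootMultiplicity_eq_zero (hr 1 (by simp)),
        rootMultiplicity_eq_zero (hr w (by simp)), rootMultiplicity_eq_zero (hr (w ^ 2) (by simp))]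
      simp

theorem zz_nonneg (hw : w ^ 2 + w + 1 = 0) {G : F[X]} (hG : G ≠ 0) : 0 ≤ zz w G := by
  obtain ⟨η, H, -, -, h⟩ := strip hw (fun _ => True) trivial (fun _ _ _ _ => trivial) G hG
  rw [← h]
  exact Int.natCast_nonneg _

omit [CharP F 2] in
theorem par_dvd {π U : F[X]} (hπ : Prime π) (hU : ¬ π ∣ U) (n : ℕ) : ∀ A B : F[X],
    π ^ n ∣ A ^ 2 + π * U * B ^ 2 → π ^ ((n + 1) / 2) ∣ A ∧ π ^ (n / 2) ∣ B := by
  induction n using Nat.twoStepInduction with
  | zero => intro A B _; simp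
  | one =>
    intro A B h
    rw [pow_one, mul_assoc, dvd_add_left (dvd_mul_right _ _)] at h
    simpa using hπ.dvd_of_dvd_pow h
  | more n ih _ =>
    intro A B h
    have h1 : π ∣ A ^ 2 + π * U * B ^ 2 := (dvd_pow_self π (by omega)).trans h
    rw [mul_assoc, dvd_add_left (dvd_mul_right _ _)] at h1
    obtain ⟨A', rfl⟩ := hπ.dvd_of_dvd_pow h1
    have e1 : (π * A') ^ 2 + π * U * B ^ 2 = (π * A' ^ 2 + U * B ^ 2) * π := by ring
    rw [e1, pow_succ, mul_dvd_mul_iff_right hπ.ne_zero] at h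
    have h2 : π ∣ π * A' ^ 2 + U * B ^ 2 := (dvd_pow_self π (by omega)).trans h
    rw [dvd_add_right (dvd_mul_right _ _)] at h2
    obtain ⟨B', rfl⟩ := hπ.dvd_of_dvd_pow ((hπ.dvd_or_dvd h2).resolve_left hU)
    have e2 : π * A' ^ 2 + U * (π * B') ^ 2 = (A' ^ 2 + π * U * B' ^ 2) * π := by ring
    rw [e2, pow_succ, mul_dvd_mul_iff_right hπ.ne_zero] at h
    obtain ⟨a, b⟩ := ih A' B' h
    rw [show (n + 2 + 1) / 2 = (n + 1) / 2 + 1 by omega, show (n + 2) / 2 = n / 2 + 1 by omega,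
      pow_succ', pow_succ']
    exact ⟨mul_dvd_mul_left _ a, mul_dvd_mul_left _ b⟩

/-- the substitution of `c * X` -/
noncomputable def tw (c : F) : F[X] →+* F[X] := compRingHom (C c * X)

omit [CharP F 2] in
@[simp] theorem tw_X (c : F) : tw c X = C c * X := by simp [tw]

omit [CharP F 2] in
@[simp] theorem tw_C (c a : F) : tw c (C a) = C a := by simp [tw]

omit [CharP F 2] in
theorem tw_deg (c : F) (G : F[X]) : (tw c G).natDegree ≤ G.natDegree := by
  refine natDegree_comp_le.trans ?_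
  have : (C c * X : F[X]).natDegree ≤ 1 := by compute_degree
  exact (Nat.mul_le_mul_left _ this).trans (mul_one _).le

omit [CharP F 2] in
theorem tw_dvd {c r r' : F} (h : c * r' = r) {n : ℕ} {G : F[X]} (hG : (X - C r) ^ n ∣ G) :
    (X - C r') ^ n ∣ tw c G := by
  refine Dvd.dvd.trans ?_ (map_dvd (tw c) hG)
  rw [map_pow]
  refine pow_dvd_pow_of_dvd ⟨C c, ?_⟩ n
  rw [map_sub, tw_X, tw_C, ← h, C_mul]
  ring

omit [CharP F 2] in
theorem tw_expand {c : F} (hc : c ^ 3 = 1) (p : F[X]) : tw c (expand F 3 p) = expand F 3 p := by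
  have : (X ^ 3 : F[X]).comp (C c * X) = X ^ 3 := by
    rw [X_pow_comp, mul_pow, ← C_pow, hc, C_1, one_mul]
  rw [tw, coe_compRingHom_apply, expand_eq_comp_X_pow, comp_assoc, this]

/-- the wedge of two polynomials -/
noncomputable def wd (w : F) (a b : F[X]) : F[X] :=
  tw w a * tw (w ^ 2) b + tw (w ^ 2) a * tw w b

omit [CharP F 2] in
theorem wd_dvd {r r1 r2 : F} (h1 : w * r = r1) (h2 : w ^ 2 * r = r2) {a b : F[X]}
    {i1 j1 i2 j2 m : ℕ} (a1 : (X - C r1) ^ i1 ∣ a) (b1 : (X - C r1) ^ j1 ∣ b)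
    (a2 : (X - C r2) ^ i2 ∣ a) (b2 : (X - C r2) ^ j2 ∣ b) (m1 : m ≤ i1 + j2) (m2 : m ≤ i2 + j1)
    (h0 : wd w a b ≠ 0) : m ≤ rootMultiplicity r (wd w a b) := by
  rw [le_rootMultiplicity_iff h0]
  refine dvd_add ((pow_dvd_pow _ m1).trans ?_) ((pow_dvd_pow _ m2).trans ?_)
  · rw [pow_add]; exact mul_dvd_mul (tw_dvd h1 a1) (tw_dvd h2 b2)
  · rw [pow_add]; exact mul_dvd_mul (tw_dvd h2 a2) (tw_dvd h1 b1)

theorem par_root {r : F} (hr : r ^ 3 = 1) {G a b : F[X]} (e : X ^ 4 * G = a ^ 2 + X ^ 3 * b ^ 2) :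
    (X - C r) ^ ((G.rootMultiplicity r + 1) / 2) ∣ a + b ∧
      (X - C r) ^ (G.rootMultiplicity r / 2) ∣ b := by
  refine par_dvd (U := X ^ 2 + C r * X + C r ^ 2) (prime_X_sub_C r) ?_ _ _ _ ?_
  · rw [dvd_iff_isRoot]
    simp only [IsRoot.def, eval_add, eval_pow, eval_X, eval_mul, eval_C]
    grind
  · have h3 : (C r : F[X]) ^ 3 = 1 := by rw [← C_pow, hr, C_1]
    have : (a + b) ^ 2 + (X - C r) * (X ^ 2 + C r * X + C r ^ 2) * b ^ 2 = X ^ 4 * G := by
      rw [e]; grind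
    rw [this]
    exact (pow_rootMultiplicity_dvd G r).mul_left _

theorem zz_wd (hw : w ^ 2 + w + 1 = 0) {G a b : F[X]} (hG : G ≠ 0)
    (e : X ^ 4 * G = a ^ 2 + X ^ 3 * b ^ 2) (h0 : wd w a b ≠ 0) : zz w (wd w a b) ≤ zz w G := by
  have h3 := w3 hw
  have ha : a ≠ 0 := by rintro rfl; simp [wd] at h0
  have hb : b ≠ 0 := by rintro rfl; simp [wd] at h0
  have d1 : (wd w a b).natDegree ≤ a.natDegree + b.natDegree := by
    refine (natDegree_add_le _ _).trans (max_le ?_ ?_) <;>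
      exact natDegree_mul_le.trans (add_le_add (tw_deg _ _) (tw_deg _ _))
  have d2 : a.natDegree + b.natDegree ≤ G.natDegree + 2 := by
    have e1 := congrArg natDegree e
    rw [natDegree_mul (pow_ne_zero _ X_ne_zero) hG, natDegree_X_pow] at e1
    have e2 : (a ^ 2).natDegree = 2 * a.natDegree := natDegree_pow _ _
    have e3 : (X ^ 3 * b ^ 2).natDegree = 3 + 2 * b.natDegree := by
      rw [natDegree_mul (pow_ne_zero _ X_ne_zero) (pow_ne_zero _ hb), natDegree_X_pow,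
        natDegree_pow]
    rcases lt_or_gt_of_ne (show (a ^ 2).natDegree ≠ (X ^ 3 * b ^ 2).natDegree by omega) with h | h
    · rw [natDegree_add_eq_right_of_natDegree_lt h] at e1; omega
    · rw [natDegree_add_eq_left_of_natDegree_lt h] at e1; omega
  have z0 : G.rootMultiplicity 0 + 3 ≤ rootMultiplicity 0 (wd w a b) := by
    have h1 := pow_rootMultiplicity_dvd G 0
    generalize G.rootMultiplicity 0 = p at h1
    rw [C_0, sub_zero] at h1
    obtain ⟨k1, k2⟩ := par_dvd (U := 1) (prime_X (R := F)) (by simp [X_dvd_iff]) (p + 4) a (X * b)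
      (by
        have : a ^ 2 + X * 1 * (X * b) ^ 2 = G * X ^ 4 := by rw [mul_comm G, e]; ring
        rw [this, pow_add]
        exact mul_dvd_mul_right h1 _)
    rw [show (p + 4) / 2 = (p + 2) / 2 + 1 by omega, pow_succ',
      mul_dvd_mul_iff_left X_ne_zero] at k2
    have k1' : (X - C 0) ^ ((p + 4 + 1) / 2) ∣ a := by simpa using k1
    have k2' : (X - C 0) ^ ((p + 2) / 2) ∣ b := by simpa using k2
    exact wd_dvd (mul_zero _) (mul_zero _) k1' k2' k1' k2' (by omega) (by omega) h0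
  obtain ⟨a0, b0⟩ := par_root (one_pow 3) e
  obtain ⟨a1, b1⟩ := par_root h3 e
  obtain ⟨a2, b2⟩ := par_root (r := w ^ 2) (by grind) e
  have ew : wd w (a + b) b = wd w a b := by
    simp only [wd, map_add]; grind
  have z1 := wd_dvd (w := w) (r := 1) (mul_one _) (mul_one _) a1 b1 a2 b2 (min_le_left _ _)
    (min_le_right _ _) (ew ▸ h0)
  have z2 := wd_dvd (w := w) (r := w) (sq w).symm (by grind) a2 b2 a0 b0 (min_le_left _ _)
    (min_le_right _ _) (ew ▸ h0)
  have z3 := wd_dvd (w := w) (r := w ^ 2) (by grind) (by grind) a0 b0 a1 b1 (min_le_left _ _)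
    (min_le_right _ _) (ew ▸ h0)
  rw [ew] at z1 z2 z3
  simp only [zz]
  omega

end Pool.Agent.MP_c07293_an.H17
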